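import Pool.Agent.H54.TN.LC2a

/-!
# tn_modules, module LC2: decoupling after localization of the directions
-/

set_option autoImplicit false
set_option maxHeartbeats 1000000

namespace Pool.Agent.H54.TN

open MeasureTheory Set FourierTransform
open Pool.Agent.H93.TN Pool.Agent.H83.LS Pool.Agent.H93.AR Pool.Agent.H54.LS Pool.Agent.H14.LS
open Pool.Agent.H83.AR Pool.Agent.H84.BR Pool.Agent.H84.B2 Pool.Agent.H48.TN Pool.Agent.H3.TN
open scoped ENNReal NNReal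

theorem sp_nrm {n : ℕ} (w : Sp n) : ‖(w : EE n)‖ = 1 := mem_sphere_zero_iff_norm.1 w.2

/-- averaging over the directions -/
theorem avg_dir {n : ℕ} {φ ρ σ : ℝ} (hρ : 0 < ρ) {m : ℝ≥0∞} (F : EE n → ℝ≥0∞)
    (hF : Measurable F)
    (hm : ∀ u : EE n, ‖u‖ = 1 → m ≤ sg n {w : Sp n | ‖u - w‖ ≤ φ}) :
    m * ∫⁻ x in {x : EE n | ρ ≤ ‖x‖ ∧ ‖x‖ ≤ σ}, F x ≤
      ∫⁻ w : Sp n, ∫⁻ x in {x : EE n | (ρ ≤ ‖x‖ ∧ ‖x‖ ≤ σ) ∧ ‖‖x‖⁻¹ • x - w‖ ≤ φ}, F x
        ∂volume ∂(sg n) := by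
  set Ω : Set (EE n) := {x : EE n | ρ ≤ ‖x‖ ∧ ‖x‖ ≤ σ} with hΩ
  have hΩm : MeasurableSet Ω :=
    (measurableSet_le measurable_const measurable_norm).inter
      (measurableSet_le measurable_norm measurable_const)
  have hd : Measurable fun x : EE n => ‖x‖⁻¹ • x := by
    have h0 : Measurable fun x : EE n => ‖x‖⁻¹ := measurable_norm.inv
    exact h0.smul measurable_id
  have hS : MeasurableSet {q : Sp n × EE n | ‖‖q.2‖⁻¹ • q.2 - (q.1 : EE n)‖ ≤ φ} := by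
    have h1 : Measurable fun q : Sp n × EE n => ‖q.2‖⁻¹ • q.2 - (q.1 : EE n) :=
      (hd.comp measurable_snd).sub (measurable_subtype_coe.comp measurable_fst)
    exact measurableSet_le h1.norm measurable_const
  have hSw : ∀ w : Sp n, MeasurableSet {x : EE n | ‖‖x‖⁻¹ • x - (w : EE n)‖ ≤ φ} := by
    intro w
    exact measurableSet_le (hd.sub measurable_const).norm measurable_const
  set G : Sp n → EE n → ℝ≥0∞ := fun w x =>
    {q : Sp n × EE n | ‖‖q.2‖⁻¹ • q.2 - (q.1 : EE n)‖ ≤ φ}.indicator (fun q => F q.2) (w, x) with hG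
  have hGm : Measurable (Function.uncurry G) := by
    have : Function.uncurry G =
        {q : Sp n × EE n | ‖‖q.2‖⁻¹ • q.2 - (q.1 : EE n)‖ ≤ φ}.indicator (fun q => F q.2) := rfl
    rw [this]
    exact (hF.comp measurable_snd).indicator hS
  have e1 : ∀ w : Sp n, ∫⁻ x in {x : EE n | (ρ ≤ ‖x‖ ∧ ‖x‖ ≤ σ) ∧ ‖‖x‖⁻¹ • x - w‖ ≤ φ}, F x =
      ∫⁻ x in Ω, G w x := by
    intro w
    have h1 : {x : EE n | (ρ ≤ ‖x‖ ∧ ‖x‖ ≤ σ) ∧ ‖‖x‖⁻¹ • x - w‖ ≤ φ} =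
        {x : EE n | ‖‖x‖⁻¹ • x - (w : EE n)‖ ≤ φ} ∩ Ω := by
      ext x
      constructor
      · rintro ⟨a, b⟩
        exact ⟨b, a⟩
      · rintro ⟨b, a⟩
        exact ⟨a, b⟩
    have h2 : (fun x => G w x) =
        {x : EE n | ‖‖x‖⁻¹ • x - (w : EE n)‖ ≤ φ}.indicator F := by
      funext x
      rfl
    rw [h1, ← Measure.restrict_restrict (hSw w), h2, lintegral_indicator (hSw w)]
  simp_rw [e1]
  rw [lintegral_lintegral_swap (μ := sg n) (ν := volume.restrict Ω) hGm.aemeasurable]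
  rw [← lintegral_const_mul _ hF]
  refine setLIntegral_mono' hΩm fun x hx => ?_
  have hx0 : x ≠ 0 := by
    intro h
    rw [h, hΩ] at hx
    have : ρ ≤ ‖(0 : EE n)‖ := hx.1
    rw [norm_zero] at this
    linarith
  have hx1 : ‖‖x‖⁻¹ • x‖ = 1 := by
    rw [norm_smul, norm_inv, norm_norm, inv_mul_cancel₀ (norm_ne_zero_iff.2 hx0)]
  have h3 : (fun w : Sp n => G w x) =
      {w : Sp n | ‖‖x‖⁻¹ • x - (w : EE n)‖ ≤ φ}.indicator (fun _ => F x) := by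
    funext w
    rfl
  have h4 : MeasurableSet {w : Sp n | ‖‖x‖⁻¹ • x - (w : EE n)‖ ≤ φ} :=
    measurableSet_le (measurable_const.sub measurable_subtype_coe).norm measurable_const
  rw [h3, lintegral_indicator_const h4, mul_comm]
  gcongr
  exact hm _ hx1

/-- splitting -/
theorem split_w {n : ℕ} {q : ℝ} (hq : 2 < q) {f g h : EE n → ℂ} {A B : Set (EE n)}
    (hA : MeasurableSet A) (hAB : A ⊆ B) (hg : Measurable g) (hfgh : ∀ x, f x = g x + h x)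
    {T : ℝ} (hT : 0 ≤ T) (hh : ∀ x ∈ A, ‖h x‖ ≤ T) :
    ∫⁻ x in A, ‖f x‖ₑ ^ q ≤ ENNReal.ofReal (2 ^ (q - 1)) * ((∫⁻ x in B, ‖g x‖ₑ ^ q) +
      ENNReal.ofReal (T ^ (q - 2)) * ∫⁻ x, ‖h x‖ₑ ^ 2) := by
  have h2 : (ENNReal.ofReal (2 ^ (q - 1)) : ℝ≥0∞) = 2 ^ (q - 1) := by
    rw [← ENNReal.ofReal_rpow_of_pos (by norm_num)]
    norm_num
  have hgm : Measurable fun x => ‖g x‖ₑ ^ q := hg.enorm.pow_const q
  calc ∫⁻ x in A, ‖f x‖ₑ ^ q
      ≤ ∫⁻ x in A, ENNReal.ofReal (2 ^ (q - 1)) * (‖g x‖ₑ ^ q + ‖h x‖ₑ ^ q) := by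
        refine lintegral_mono fun x => ?_
        rw [hfgh x, h2]
        exact (ENNReal.rpow_le_rpow (enorm_add_le _ _) (by linarith)).trans
          (ENNReal.rpow_add_le_mul_rpow_add_rpow _ _ (by linarith))
    _ = ENNReal.ofReal (2 ^ (q - 1)) * ∫⁻ x in A, (‖g x‖ₑ ^ q + ‖h x‖ₑ ^ q) :=
        lintegral_const_mul' _ _ ENNReal.ofReal_ne_top
    _ = ENNReal.ofReal (2 ^ (q - 1)) * ((∫⁻ x in A, ‖g x‖ₑ ^ q) + ∫⁻ x in A, ‖h x‖ₑ ^ q) := by
        rw [lintegral_add_left hgm]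
    _ ≤ _ := by
        refine mul_le_mul' le_rfl (add_le_add (lintegral_mono_set hAB) ?_)
        calc ∫⁻ x in A, ‖h x‖ₑ ^ q ≤ ∫⁻ x in A, ENNReal.ofReal (T ^ (q - 2)) * ‖h x‖ₑ ^ 2 := by
              refine setLIntegral_mono' hA fun x hx => ?_
              have e1 : ‖h x‖ₑ ^ q = ‖h x‖ₑ ^ (q - 2) * ‖h x‖ₑ ^ 2 := by
                rw [← ENNReal.rpow_natCast, ← ENNReal.rpow_add_of_nonneg _ _ (by linarith)
                  (by norm_num)]
                congr 1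
                push_cast
                ring
              rw [e1, ← ENNReal.ofReal_rpow_of_nonneg hT (by linarith)]
              refine mul_le_mul' (ENNReal.rpow_le_rpow ?_ (by linarith)) le_rfl
              rw [← ofReal_norm]
              exact ENNReal.ofReal_le_ofReal (hh x hx)
          _ = ENNReal.ofReal (T ^ (q - 2)) * ∫⁻ x in A, ‖h x‖ₑ ^ 2 :=
              lintegral_const_mul' _ _ ENNReal.ofReal_ne_top
          _ ≤ _ := mul_le_mul' le_rfl (setLIntegral_le_lintegral _ _)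

/-- final arithmetic, main term -/
theorem arith1 {q k Cm CF φ r : ℝ} (hCm : 0 < Cm) (hφ : 0 < φ) (hr : 0 < r) :
    Cm * φ ^ (-k) * (2 ^ (q - 1) * (CF * (r ^ (-(k * (q - 1))) * (2 * (Cm * φ ^ k)) ^ (q - 2)))) =
      (Cm * 2 ^ (q - 1) * CF * (2 * Cm) ^ (q - 2)) *
        (φ ^ (k * (q - 3)) * r ^ (-(k * (q - 1)))) := by
  have e1 : (2 * (Cm * φ ^ k)) ^ (q - 2) = (2 * Cm) ^ (q - 2) * φ ^ (k * (q - 2)) := by
    rw [← mul_assoc, Real.mul_rpow (by positivity) (by positivity), ← Real.rpow_mul hφ.le]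
  have e2 : φ ^ (k * (q - 3)) = φ ^ (-k) * φ ^ (k * (q - 2)) := by
    rw [← Real.rpow_add hφ]
    congr 1
    ring
  rw [e1, e2]
  ring

/-- final arithmetic, tails -/
theorem arith2 {q lam φ : ℝ} {n N N2 : ℕ} (hq : 2 < q) (hn : 1 ≤ n) (hlam : 1 ≤ lam)
    (hφ : 1 / (64 * lam) ≤ φ) (hN2 : (N : ℝ) + n ≤ N2 * (q - 2)) :
    φ ^ (-((n : ℝ) - 1)) * (lam ^ (N + n))⁻¹ ≤ 64 ^ n * (lam ^ N)⁻¹ ∧
    ((lam ^ N2)⁻¹) ^ (q - 2) ≤ (lam ^ (N + n))⁻¹ := by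
  have hlam0 : 0 < lam := by linarith
  have hφ0 : 0 < φ := lt_of_lt_of_le (by positivity) hφ
  have hn1 : (1 : ℝ) ≤ n := by exact_mod_cast hn
  constructor
  · have h1 : φ ^ (-((n : ℝ) - 1)) ≤ 64 ^ n * lam ^ n := by
      have h2 : φ ^ (-((n : ℝ) - 1)) ≤ (1 / (64 * lam)) ^ (-((n : ℝ) - 1)) :=
        Real.rpow_le_rpow_of_nonpos (by positivity) hφ (by linarith)
      have h3 : (1 / (64 * lam)) ^ (-((n : ℝ) - 1)) = (64 * lam) ^ ((n : ℝ) - 1) := by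
        rw [one_div, Real.inv_rpow (by positivity), Real.rpow_neg (by positivity), inv_inv]
      have h4 : (64 * lam) ^ ((n : ℝ) - 1) ≤ (64 * lam) ^ (n : ℝ) :=
        Real.rpow_le_rpow_of_exponent_le (by linarith) (by linarith)
      rw [Real.rpow_natCast, mul_pow] at h4
      linarith
    have h5 : lam ^ (N + n) = lam ^ N * lam ^ n := pow_add _ _ _
    rw [h5, mul_inv]
    have h6 : 0 < lam ^ n := by positivity
    calc φ ^ (-((n : ℝ) - 1)) * ((lam ^ N)⁻¹ * (lam ^ n)⁻¹)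
        ≤ (64 ^ n * lam ^ n) * ((lam ^ N)⁻¹ * (lam ^ n)⁻¹) :=
          mul_le_mul_of_nonneg_right h1 (by positivity)
      _ = 64 ^ n * (lam ^ N)⁻¹ := by field_simp
  · rw [Real.inv_rpow (by positivity), ← Real.rpow_natCast lam N2, ← Real.rpow_mul hlam0.le,
      ← Real.rpow_natCast lam (N + n)]
    apply inv_anti₀ (by positivity)
    apply Real.rpow_le_rpow_of_exponent_le hlam
    push_cast
    exact hN2

theorem pf_lc2 (hFLL : T_FLL) (hTBL : T_TBL) (hSEL : T_SEL) (hCNC : T_CNC) (hRAD : T_RAD)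
    (hMDL : T_MDL) (_hSID : T_SID) (hZB : T_ZB) (hZN : T_ZN) : T_LC2 := by
  intro n q ε N hn hq hε
  have hn1 : 1 ≤ n := by omega
  have hq2 : 0 < q - 2 := by linarith
  obtain ⟨N2, hN2⟩ : ∃ N2 : ℕ, (N : ℝ) + n ≤ N2 * (q - 2) := by
    obtain ⟨m, hm⟩ := exists_nat_ge (((N : ℝ) + n) / (q - 2))
    exact ⟨m, by rwa [div_le_iff₀ hq2] at hm⟩
  obtain ⟨CF, hCF⟩ := hFLL n q ε (N + n) hn1 hq hε
  obtain ⟨CT, hCT0, hCT⟩ := hTBL n ε N2 hn hε
  obtain ⟨Cv, hCv1, hCv⟩ := vw_facts hCNC hSEL hRAD n hn1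
  obtain ⟨Cm, hCm0, hCm⟩ := hMDL n hn1
  set S : ℝ := (sg n univ).toReal with hS
  have hS0 : 0 ≤ S := ENNReal.toReal_nonneg
  have hSe : sg n univ = ENNReal.ofReal S := (ENNReal.ofReal_toReal (measure_lt_top _ _).ne).symm
  have hCF0 : (0 : ℝ) ≤ CF := CF.2
  have hCv0 : 0 ≤ Cv := by linarith
  set D1 : ℝ := Cm * 2 ^ (q - 1) * CF * (2 * Cm) ^ (q - 2) with hD1
  set D2 : ℝ := Cm * 64 ^ n * (2 ^ (q - 1) * (CF * Cv ^ (q - 2) * Cv + CT ^ (q - 2) * Cv)) * S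
    with hD2
  have hD10 : 0 ≤ D1 := by positivity
  have hD20 : 0 ≤ D2 := by positivity
  refine ⟨(D1 + D2).toNNReal, ?_⟩
  intro lam Lam L ρ σ φ M U hlam hsq h4 hL hρ hρ4 hσ hrφ hφ16 hφ1 hφ2 hU hUM hC0
  have hlam0 : 0 < lam := by linarith
  have hsq0 : 0 < Real.sqrt lam := Real.sqrt_pos.2 hlam0
  have hsq1 : 1 ≤ Real.sqrt lam := Real.one_le_sqrt.2 hlam
  have hLam : 0 < Lam := hsq0.trans_le hsq
  have hM0 : 0 ≤ M := (norm_nonneg _).trans (hUM 0)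
  set r : ℝ := dl lam Lam with hr
  have hr0 : 0 < r := by
    rw [hr]
    unfold dl
    positivity
  have hφ0 : 0 < φ := hr0.trans_le hrφ
  have hφlam : 1 / (64 * lam) ≤ φ := by
    refine le_trans ?_ hrφ
    rw [hr]
    unfold dl
    rw [div_le_div_iff₀ (by positivity) (by positivity)]
    nlinarith
  obtain ⟨har1, har2⟩ := arith2 hq hn1 hlam hφlam hN2
  set v : EE n → ℂ := PL n L U with hv
  have hvm : Measurable v := PL_meas hZB hn1 hL hU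
  have hvM : ∀ x, ‖v x‖ ≤ M := PL_bound hZN hZB hn1 hL hUM
  set k : ℝ := (n : ℝ) - 1 with hk
  have hkn : ∀ x : ℝ, x ^ (n - 1) = x ^ k := by
    intro x
    rw [hk, ← Real.rpow_natCast, Nat.cast_sub hn1, Nat.cast_one]
  set I2 : ℝ≥0∞ := ∫⁻ x, ‖v x‖ₑ ^ 2 with hI2
  set T : ℝ := CT * (lam ^ N2)⁻¹ * M with hT
  have hT0 : 0 ≤ T := by positivity
  set Y : Sp n → ℝ≥0∞ := fun w => ∫⁻ u : Sp n, ∫⁻ x in {x : EE n |
    |inner ℝ x (u : EE n)| ≤ 2 * lam ^ ε * σ},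
      ‖Qb n Lam r (u : EE n) (Aw n Lam φ (w : EE n) v) x‖ₑ ^ q ∂volume ∂(sg n) with hY
  obtain ⟨-, hmdl⟩ := hCm φ hφ0 (by linarith)
  -- mass of `B_w`
  set Bw : Sp n → Set (Sp n) := fun w =>
    {u : Sp n | ‖(u : EE n) - w‖ ≤ 5 * φ ∨ ‖(u : EE n) + w‖ ≤ 5 * φ} with hBw
  have hBm : ∀ w, MeasurableSet (Bw w) := fun w =>
    (measurableSet_le (measurable_subtype_coe.sub measurable_const).norm measurable_const).union
      (measurableSet_le (measurable_subtype_coe.add measurable_const).norm measurable_const)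
  have hBs : ∀ w : Sp n, sg n (Bw w) ≤ ENNReal.ofReal (2 * (Cm * φ ^ k)) := by
    intro w
    have hw := sp_nrm w
    have h1 := (hmdl w hw).2.2.2
    have h2 := (hmdl (-w) (by rw [norm_neg, hw])).2.2.2
    rw [hkn] at h1 h2
    have hsub : Bw w ⊆ {u : Sp n | ‖(w : EE n) - u‖ ≤ 6 * φ} ∪
        {u : Sp n | ‖-(w : EE n) - u‖ ≤ 6 * φ} := by
      rintro u (hu | hu)
      · left
        show ‖(w : EE n) - u‖ ≤ 6 * φ
        rw [norm_sub_rev]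
        linarith
      · right
        show ‖-(w : EE n) - u‖ ≤ 6 * φ
        have : -(w : EE n) - u = -((u : EE n) + w) := by abel
        rw [this, norm_neg]
        linarith
    calc sg n (Bw w) ≤ _ := measure_mono hsub
      _ ≤ _ := measure_union_le _ _
      _ ≤ ENNReal.ofReal (Cm * φ ^ k) + ENNReal.ofReal (Cm * φ ^ k) := add_le_add h1 h2
      _ = ENNReal.ofReal (2 * (Cm * φ ^ k)) := by
          rw [← ENNReal.ofReal_add (by positivity) (by positivity)]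
          congr 1
          ring
  set K1 : ℝ := 2 ^ (q - 1) * (CF * (r ^ (-(k * (q - 1))) * (2 * (Cm * φ ^ k)) ^ (q - 2))) with hK1
  set K2 : ℝ := 2 ^ (q - 1) * (CF * ((lam ^ (N + n))⁻¹ * (Cv * M) ^ (q - 2)) * Cv +
    T ^ (q - 2) * Cv) with hK2
  have hK10 : 0 ≤ K1 := by positivity
  have hK20 : 0 ≤ K2 := by positivity
  have hCMq : 0 ≤ (Cv * M) ^ (q - 2) := by positivity
  have hTq : 0 ≤ T ^ (q - 2) := by positivity
  -- one direction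
  have hone : ∀ w : Sp n, ∫⁻ x in {x : EE n | (ρ ≤ ‖x‖ ∧ ‖x‖ ≤ σ) ∧ ‖‖x‖⁻¹ • x - w‖ ≤ φ},
      ‖v x‖ₑ ^ q ≤ ENNReal.ofReal K1 * Y w + ENNReal.ofReal K2 * I2 := by
    intro w
    have hw := sp_nrm w
    obtain ⟨g1, g2, g3, g4, g5, g6, g7, g8⟩ := hCv Lam φ M w v hLam hφ0 hφ16 hw hvm hvM hC0
    have hd : Measurable fun x : EE n => ‖x‖⁻¹ • x := by
      have h0 : Measurable fun x : EE n => ‖x‖⁻¹ := measurable_norm.inv
      exact h0.smul measurable_id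
    have hAm : MeasurableSet {x : EE n | (ρ ≤ ‖x‖ ∧ ‖x‖ ≤ σ) ∧ ‖‖x‖⁻¹ • x - w‖ ≤ φ} :=
      ((measurableSet_le measurable_const measurable_norm).inter
        (measurableSet_le measurable_norm measurable_const)).inter
        (measurableSet_le (hd.sub measurable_const).norm measurable_const)
    have hs := split_w (n := n) hq (f := v) (g := Aw n Lam φ w v)
      (h := cn (MK (sE n Lam φ w)) v) (B := {x : EE n | ‖x‖ ≤ σ}) hAm
      (fun x hx => hx.1.2) g1 g5 hT0 (fun x hx => hCT lam Lam L ρ φ M w U x hlam hsq h4 hL hρ hρ4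
        hφ16 hφ1 hφ2 hw hU hUM hx.1.1 hx.2)
    refine hs.trans ?_
    have hf := hCF lam Lam σ (Cv * M) (Bw w) (Aw n Lam φ w v) hlam hsq h4 hσ (hBm w) g1 g2 g3
      (fun u hu x => by
        have hu' : 5 * φ < ‖(u : EE n) - w‖ ∧ 5 * φ < ‖(u : EE n) + w‖ := by
          constructor
          · by_contra h
            exact hu (Or.inl (not_lt.1 h))
          · by_contra h
            exact hu (Or.inr (not_lt.1 h))
        exact g8 r hr0 hrφ u (sp_nrm u) hu'.1 hu'.2 x)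
    have hf2 : ∫⁻ x in {x : EE n | ‖x‖ ≤ σ}, ‖Aw n Lam φ w v x‖ₑ ^ q ≤
        ENNReal.ofReal (CF * (r ^ (-(k * (q - 1))) * (2 * (Cm * φ ^ k)) ^ (q - 2))) * Y w +
        ENNReal.ofReal (CF * ((lam ^ (N + n))⁻¹ * (Cv * M) ^ (q - 2)) * Cv) * I2 := by
      refine hf.trans ?_
      rw [mul_add]
      refine add_le_add ?_ ?_
      · have h1 : (sg n (Bw w)) ^ (q - 2) ≤ ENNReal.ofReal ((2 * (Cm * φ ^ k)) ^ (q - 2)) := by
          rw [← ENNReal.ofReal_rpow_of_nonneg (by positivity) hq2.le]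
          exact ENNReal.rpow_le_rpow (hBs w) hq2.le
        have h2 : ∫⁻ u in Bw w, ∫⁻ x in {x : EE n | |inner ℝ x (u : EE n)| ≤ 2 * lam ^ ε * σ},
            ‖Qb n Lam r (u : EE n) (Aw n Lam φ w v) x‖ₑ ^ q ∂volume ∂(sg n) ≤ Y w :=
          setLIntegral_le_lintegral _ _
        have e3 : ENNReal.ofReal (CF * (r ^ (-(k * (q - 1))) *
            (2 * (Cm * φ ^ k)) ^ (q - 2))) = CF * (ENNReal.ofReal (r ^ (-(k * (q - 1)))) *
            ENNReal.ofReal ((2 * (Cm * φ ^ k)) ^ (q - 2))) := by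
          rw [ENNReal.ofReal_mul hCF0, ENNReal.ofReal_mul (by positivity),
            ENNReal.ofReal_coe_nnreal]
        rw [e3]
        simp only [mul_assoc] at h2 ⊢
        exact mul_le_mul' le_rfl (mul_le_mul' le_rfl (mul_le_mul' h1 h2))
      · have e3 : ENNReal.ofReal (CF * ((lam ^ (N + n))⁻¹ * (Cv * M) ^ (q - 2)) * Cv) =
            CF * (ENNReal.ofReal ((lam ^ (N + n))⁻¹ * (Cv * M) ^ (q - 2)) *
              ENNReal.ofReal Cv) := by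
          rw [mul_assoc, ENNReal.ofReal_mul hCF0, ENNReal.ofReal_mul (by positivity),
            ENNReal.ofReal_coe_nnreal]
        rw [e3]
        simp only [mul_assoc]
        exact mul_le_mul' le_rfl (mul_le_mul' le_rfl g4)
    have hf3 : ENNReal.ofReal (T ^ (q - 2)) * ∫⁻ x, ‖cn (MK (sE n Lam φ w)) v x‖ₑ ^ 2 ≤
        ENNReal.ofReal (T ^ (q - 2) * Cv) * I2 := by
      rw [ENNReal.ofReal_mul hTq, mul_assoc]
      exact mul_le_mul' le_rfl g7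
    calc _ ≤ ENNReal.ofReal (2 ^ (q - 1)) *
          ((ENNReal.ofReal (CF * (r ^ (-(k * (q - 1))) * (2 * (Cm * φ ^ k)) ^ (q - 2))) * Y w +
          ENNReal.ofReal (CF * ((lam ^ (N + n))⁻¹ * (Cv * M) ^ (q - 2)) * Cv) * I2) +
          ENNReal.ofReal (T ^ (q - 2) * Cv) * I2) :=
          mul_le_mul' le_rfl (add_le_add hf2 hf3)
      _ = ENNReal.ofReal K1 * Y w + ENNReal.ofReal K2 * I2 := by
          rw [hK1, hK2, ENNReal.ofReal_mul (by positivity : (0 : ℝ) ≤ 2 ^ (q - 1)),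
            ENNReal.ofReal_mul (by positivity : (0 : ℝ) ≤ 2 ^ (q - 1)),
            ENNReal.ofReal_add (by positivity) (by positivity)]
          ring
  -- all directions
  have hall := avg_dir (n := n) (φ := φ) (ρ := ρ) (σ := σ) hρ (m := ENNReal.ofReal (Cm⁻¹ * φ ^ k))
    (fun x => ‖v x‖ₑ ^ q) (hvm.enorm.pow_const q) (fun u hu => by
      have := (hmdl u hu).2.2.1
      rwa [hkn] at this)
  have hall2 : ENNReal.ofReal (Cm⁻¹ * φ ^ k) * ∫⁻ x in {x : EE n | ρ ≤ ‖x‖ ∧ ‖x‖ ≤ σ},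
      ‖v x‖ₑ ^ q ≤ ENNReal.ofReal K1 * ∫⁻ w, Y w ∂(sg n) +
        ENNReal.ofReal K2 * I2 * ENNReal.ofReal S := by
    refine hall.trans ((lintegral_mono hone).trans ?_)
    rw [lintegral_add_right _ measurable_const, lintegral_const_mul' _ _ ENNReal.ofReal_ne_top,
      lintegral_const, hSe]
  -- division by the mass
  have hinv : ENNReal.ofReal (Cm * φ ^ (-k)) * ENNReal.ofReal (Cm⁻¹ * φ ^ k) = 1 := by
    rw [← ENNReal.ofReal_mul (by positivity)]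
    have : Cm * φ ^ (-k) * (Cm⁻¹ * φ ^ k) = 1 := by
      have h1 : φ ^ (-k) * φ ^ k = 1 := by
        rw [← Real.rpow_add hφ0]
        simp
      calc Cm * φ ^ (-k) * (Cm⁻¹ * φ ^ k) = (Cm * Cm⁻¹) * (φ ^ (-k) * φ ^ k) := by ring
        _ = 1 := by rw [h1, mul_inv_cancel₀ hCm0.ne', one_mul]
    rw [this, ENNReal.ofReal_one]
  have hfin : ∫⁻ x in {x : EE n | ρ ≤ ‖x‖ ∧ ‖x‖ ≤ σ}, ‖v x‖ₑ ^ q ≤
      ENNReal.ofReal (Cm * φ ^ (-k)) * (ENNReal.ofReal K1 * ∫⁻ w, Y w ∂(sg n) +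
        ENNReal.ofReal K2 * I2 * ENNReal.ofReal S) := by
    calc ∫⁻ x in {x : EE n | ρ ≤ ‖x‖ ∧ ‖x‖ ≤ σ}, ‖v x‖ₑ ^ q
        = ENNReal.ofReal (Cm * φ ^ (-k)) * (ENNReal.ofReal (Cm⁻¹ * φ ^ k) *
          ∫⁻ x in {x : EE n | ρ ≤ ‖x‖ ∧ ‖x‖ ≤ σ}, ‖v x‖ₑ ^ q) := by
          rw [← mul_assoc, hinv, one_mul]
      _ ≤ _ := mul_le_mul' le_rfl hall2
  refine hfin.trans ?_
  have hb1 : ENNReal.ofReal (Cm * φ ^ (-k)) * ENNReal.ofReal K1 =
      ENNReal.ofReal D1 * ENNReal.ofReal (φ ^ (k * (q - 3)) * r ^ (-(k * (q - 1)))) := by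
    rw [← ENNReal.ofReal_mul (by positivity), ← ENNReal.ofReal_mul hD10, hK1, hD1]
    congr 1
    exact arith1 hCm0 hφ0 hr0
  have hb2 : ENNReal.ofReal (Cm * φ ^ (-k)) * (ENNReal.ofReal K2 * ENNReal.ofReal S) ≤
      ENNReal.ofReal D2 * ENNReal.ofReal ((lam ^ N)⁻¹ * M ^ (q - 2)) := by
    rw [← ENNReal.ofReal_mul hK20, ← ENNReal.ofReal_mul (by positivity),
      ← ENNReal.ofReal_mul hD20]
    apply ENNReal.ofReal_le_ofReal
    have hMq : 0 ≤ M ^ (q - 2) := Real.rpow_nonneg hM0 _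
    have e1 : (Cv * M) ^ (q - 2) = Cv ^ (q - 2) * M ^ (q - 2) := Real.mul_rpow hCv0 hM0
    have e2 : T ^ (q - 2) ≤ CT ^ (q - 2) * (lam ^ (N + n))⁻¹ * M ^ (q - 2) := by
      rw [hT, Real.mul_rpow (by positivity) hM0, Real.mul_rpow hCT0 (by positivity)]
      exact mul_le_mul_of_nonneg_right (mul_le_mul_of_nonneg_left har2 (by positivity)) hMq
    have e3 : K2 ≤ (2 ^ (q - 1) * (CF * Cv ^ (q - 2) * Cv + CT ^ (q - 2) * Cv)) *
        ((lam ^ (N + n))⁻¹ * M ^ (q - 2)) := by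
      rw [hK2, e1]
      calc 2 ^ (q - 1) * (CF * ((lam ^ (N + n))⁻¹ * (Cv ^ (q - 2) * M ^ (q - 2))) * Cv +
            T ^ (q - 2) * Cv)
          ≤ 2 ^ (q - 1) * (CF * ((lam ^ (N + n))⁻¹ * (Cv ^ (q - 2) * M ^ (q - 2))) * Cv +
            (CT ^ (q - 2) * (lam ^ (N + n))⁻¹ * M ^ (q - 2)) * Cv) := by gcongr
        _ = _ := by ring
    have hc0 : 0 ≤ 2 ^ (q - 1) * (CF * Cv ^ (q - 2) * Cv + CT ^ (q - 2) * Cv) := by positivity
    calc Cm * φ ^ (-k) * (K2 * S)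
        ≤ Cm * φ ^ (-k) * ((2 ^ (q - 1) * (CF * Cv ^ (q - 2) * Cv + CT ^ (q - 2) * Cv)) *
          ((lam ^ (N + n))⁻¹ * M ^ (q - 2)) * S) := by gcongr
      _ = Cm * (2 ^ (q - 1) * (CF * Cv ^ (q - 2) * Cv + CT ^ (q - 2) * Cv)) * S * M ^ (q - 2) *
          (φ ^ (-k) * (lam ^ (N + n))⁻¹) := by ring
      _ ≤ Cm * (2 ^ (q - 1) * (CF * Cv ^ (q - 2) * Cv + CT ^ (q - 2) * Cv)) * S * M ^ (q - 2) *
          (64 ^ n * (lam ^ N)⁻¹) := mul_le_mul_of_nonneg_left har1 (by positivity)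
      _ = _ := by
          rw [hD2]
          ring
  have hD : ((D1 + D2).toNNReal : ℝ≥0∞) = ENNReal.ofReal (D1 + D2) := rfl
  calc ENNReal.ofReal (Cm * φ ^ (-k)) * (ENNReal.ofReal K1 * ∫⁻ w, Y w ∂(sg n) +
        ENNReal.ofReal K2 * I2 * ENNReal.ofReal S)
      = (ENNReal.ofReal (Cm * φ ^ (-k)) * ENNReal.ofReal K1) * ∫⁻ w, Y w ∂(sg n) +
        (ENNReal.ofReal (Cm * φ ^ (-k)) * (ENNReal.ofReal K2 * ENNReal.ofReal S)) * I2 := by ring
    _ ≤ (ENNReal.ofReal D1 * ENNReal.ofReal (φ ^ (k * (q - 3)) * r ^ (-(k * (q - 1))))) *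
          ∫⁻ w, Y w ∂(sg n) +
        (ENNReal.ofReal D2 * ENNReal.ofReal ((lam ^ N)⁻¹ * M ^ (q - 2))) * I2 := by
        rw [hb1]
        exact add_le_add le_rfl (mul_le_mul' hb2 le_rfl)
    _ ≤ (ENNReal.ofReal (D1 + D2) * ENNReal.ofReal (φ ^ (k * (q - 3)) * r ^ (-(k * (q - 1))))) *
          ∫⁻ w, Y w ∂(sg n) +
        (ENNReal.ofReal (D1 + D2) * ENNReal.ofReal ((lam ^ N)⁻¹ * M ^ (q - 2))) * I2 := by
        have h1 : ENNReal.ofReal D1 ≤ ENNReal.ofReal (D1 + D2) :=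
          ENNReal.ofReal_le_ofReal (by linarith)
        have h2 : ENNReal.ofReal D2 ≤ ENNReal.ofReal (D1 + D2) :=
          ENNReal.ofReal_le_ofReal (by linarith)
        gcongr
    _ = _ := by
        rw [hD, mul_add, mul_assoc, mul_assoc]

end Pool.Agent.H54.TN
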