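import Pool.Agent.H48.TN.SID
import Pool.Agent.H3.TN.CNC
import Pool.Agent.H86.AR.Base

/-!
# tn_modules, module LC2, part a: the two opposite bands and the angular average
-/

set_option autoImplicit false
set_option maxHeartbeats 400000

namespace Pool.Agent.H54.TN

open MeasureTheory Set FourierTransform
open Pool.Agent.H93.TN Pool.Agent.H83.LS Pool.Agent.H93.AR Pool.Agent.H54.LS Pool.Agent.H14.LS
open Pool.Agent.H83.AR Pool.Agent.H84.BR Pool.Agent.H84.B2 Pool.Agent.H48.TN Pool.Agent.H3.TN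
open scoped ENNReal NNReal

/-! ### the average `PL` -/

theorem dirn_cases {n : ℕ} (x : EE n) : ‖x‖⁻¹ • x = 0 ∨ ‖‖x‖⁻¹ • x‖ = 1 := by
  rcases eq_or_ne x 0 with h | h
  · left
    rw [h, smul_zero]
  · right
    rw [norm_smul, norm_inv, norm_norm, inv_mul_cancel₀ (norm_ne_zero_iff.2 h)]

theorem PL_meas (hZB : T_ZB) {n : ℕ} {L : ℝ} (hn : 1 ≤ n) (hL : 1 ≤ L) {U : EE n → ℂ}
    (hU : Measurable U) : Measurable (PL n L U) := by
  have hd : Measurable fun x : EE n => ‖x‖⁻¹ • x := by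
    have h0 : Measurable fun x : EE n => ‖x‖⁻¹ := measurable_norm.inv
    exact h0.smul measurable_id
  have h1 : Measurable fun q : EE n × Sp n => (‖q.1‖⁻¹ • q.1, (q.2 : EE n)) :=
    (hd.comp measurable_fst).prodMk (measurable_subtype_coe.comp measurable_snd)
  have h2 := (Pool.Agent.H86.AR.zk_meas hZB hn hL).comp h1
  have h3 : Measurable fun q : EE n × Sp n => ‖q.1‖ • (q.2 : EE n) := by
    have h4 : Measurable fun q : EE n × Sp n => ‖q.1‖ := measurable_norm.comp measurable_fst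
    have h5 : Measurable fun q : EE n × Sp n => (q.2 : EE n) :=
      measurable_subtype_coe.comp measurable_snd
    exact h4.smul h5
  have h6 := hU.comp h3
  have h7 := (Complex.measurable_ofReal.comp h2).mul h6
  have h9 : StronglyMeasurable (Function.uncurry fun (x : EE n) (w : Sp n) =>
      ((zk n L (‖x‖⁻¹ • x) (w : EE n) : ℝ) : ℂ) * U (‖x‖ • (w : EE n))) := h7.stronglyMeasurable
  have h8 := (h9.integral_prod_right (ν := sg n)).measurable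
  have e1 : PL n L U = fun x => ∫ w : Sp n, ((zk n L (‖x‖⁻¹ • x) (w : EE n) : ℝ) : ℂ) *
      U (‖x‖ • (w : EE n)) ∂(sg n) := rfl
  rw [e1]
  exact h8

theorem PL_bound (hZN : T_ZN) (hZB : T_ZB) {n : ℕ} {L : ℝ} (hn : 1 ≤ n) (hL : 1 ≤ L)
    {U : EE n → ℂ} {M : ℝ} (hM : ∀ y, ‖U y‖ ≤ M) (x : EE n) : ‖PL n L U x‖ ≤ M := by
  unfold PL
  have hi := Pool.Agent.H86.AR.zk_integrable hZN hZB hn hL (dirn_cases x)
  calc ‖∫ w : Sp n, ((zk n L (‖x‖⁻¹ • x) (w : EE n) : ℝ) : ℂ) * U (‖x‖ • (w : EE n)) ∂(sg n)‖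
      ≤ ∫ w : Sp n, zk n L (‖x‖⁻¹ • x) (w : EE n) * M ∂(sg n) := by
        apply norm_integral_le_of_norm_le (hi.mul_const M)
        refine ae_of_all _ fun w => ?_
        rw [norm_mul, Complex.norm_real, Real.norm_eq_abs,
          abs_of_nonneg (Pool.Agent.H86.AR.zk_nonneg hZB hn hL _ _)]
        exact mul_le_mul_of_nonneg_left (hM _) (Pool.Agent.H86.AR.zk_nonneg hZB hn hL _ _)
    _ = M := by
        rw [integral_mul_const, Pool.Agent.H86.AR.zk_integral hZN hZB hn hL (dirn_cases x), one_mul]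

/-! ### linearity -/

section

variable {n : ℕ}

theorem MK_add {s₁ s₂ : EE n → ℂ} (h₁ : SC s₁) (h₂ : SC s₂) (x : EE n) :
    MK (fun ξ => s₁ ξ + s₂ ξ) x = MK s₁ x + MK s₂ x := by
  unfold MK
  have hi : ∀ {s : EE n → ℂ}, SC s → Integrable fun ξ : EE n => e (inner ℝ x ξ) * s ξ := by
    intro s hs
    have hc : Continuous fun ξ : EE n => e (inner ℝ x ξ) :=
      continuous_e.comp (continuous_const.inner continuous_id)
    refine (cnc_sc_int hs).bdd_mul (c := 1) hc.aestronglyMeasurable ?_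
    exact ae_of_all _ fun ξ => by rw [norm_e]
  rw [← integral_add (hi h₁) (hi h₂)]
  refine integral_congr_ae (ae_of_all _ fun ξ => ?_)
  simp only
  ring

theorem SC_add {s₁ s₂ : EE n → ℂ} (h₁ : SC s₁) (h₂ : SC s₂) : SC (fun ξ => s₁ ξ + s₂ ξ) :=
  ⟨h₁.1.add h₂.1, h₁.2.add h₂.2⟩

theorem SC_neg {s : EE n → ℂ} (h : SC s) : SC (fun ξ => -s ξ) :=
  ⟨h.1.neg, by
    have := h.2.comp_left (g := fun z : ℂ => -z) neg_zero
    exact this⟩

theorem cn_int {κ v : EE n → ℂ} {M : ℝ} (hκ : Integrable κ) (hv : Measurable v)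
    (hM : ∀ x, ‖v x‖ ≤ M) (x : EE n) : Integrable fun y => κ (x - y) * v y := by
  have h1 : Integrable fun y => κ (x - y) := hκ.comp_sub_left x
  exact h1.mul_bdd (c := M) hv.aestronglyMeasurable (ae_of_all _ hM)

theorem cn_add_ker {s₁ s₂ : EE n → ℂ} (h₁ : SC s₁) (h₂ : SC s₂) {v : EE n → ℂ} {M : ℝ}
    (hv : Measurable v) (hM : ∀ x, ‖v x‖ ≤ M) (x : EE n) :
    cn (MK (fun ξ => s₁ ξ + s₂ ξ)) v x = cn (MK s₁) v x + cn (MK s₂) v x := by
  unfold cn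
  rw [← integral_add (cn_int (cnc_ker h₁).1 hv hM x) (cn_int (cnc_ker h₂).1 hv hM x)]
  refine integral_congr_ae (ae_of_all _ fun y => ?_)
  simp only
  rw [MK_add h₁ h₂]
  ring

theorem cn_neg_ker {s : EE n → ℂ} {v : EE n → ℂ} (x : EE n) :
    cn (MK (fun ξ => -s ξ)) v x = -cn (MK s) v x := by
  unfold cn
  rw [← integral_neg]
  refine integral_congr_ae (ae_of_all _ fun y => ?_)
  simp only
  have : MK (fun ξ => -s ξ) (x - y) = -MK s (x - y) := by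
    unfold MK
    rw [← integral_neg]
    refine integral_congr_ae (ae_of_all _ fun ξ => ?_)
    simp only
    ring
  rw [this]
  ring

theorem cn_zero_ker {v : EE n → ℂ} (x : EE n) : cn (MK (fun _ : EE n => (0 : ℂ))) v x = 0 := by
  unfold cn MK
  simp

/-- symbol of the two opposite bands -/
noncomputable def s2 (n : ℕ) (Lam φ : ℝ) (w ξ : EE n) : ℂ :=
  sy n ch2 Lam (2 * φ) w ξ + sy n ch2 Lam (2 * φ) (-w) ξ

/-- the same times the frequency cutoff -/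
noncomputable def s1 (n : ℕ) (Lam φ : ℝ) (w ξ : EE n) : ℂ :=
  sy n chis Lam (2 * φ) w ξ + sy n chis Lam (2 * φ) (-w) ξ

theorem cz_s2 (Lam φ : ℝ) (w ξ : EE n) : Pool.Agent.H48.TN.cz n Lam ξ * s2 n Lam φ w ξ = s1 n Lam φ w ξ := by
  unfold s2 s1
  rw [mul_add, mul_comm (Pool.Agent.H48.TN.cz n Lam ξ) (sy n ch2 Lam (2 * φ) w ξ), sy_mul_cz,
    mul_comm (Pool.Agent.H48.TN.cz n Lam ξ) (sy n ch2 Lam (2 * φ) (-w) ξ), sy_mul_cz]

theorem sE_eq (Lam φ : ℝ) (w ξ : EE n) : sE n Lam φ w ξ = Pool.Agent.H48.TN.cz n Lam ξ + -s1 n Lam φ w ξ := by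
  unfold sE Pool.Agent.H48.TN.cz s1 sy aw
  rw [sub_neg_eq_add, ← Complex.ofReal_add, ← Complex.ofReal_neg, ← Complex.ofReal_add]
  congr 1
  ring

theorem cz_norm (Lam : ℝ) (ξ : EE n) : ‖Pool.Agent.H48.TN.cz n Lam ξ‖ ≤ 1 := by
  unfold Pool.Agent.H48.TN.cz
  rw [Complex.norm_real, Real.norm_eq_abs, abs_of_nonneg (chis_nonneg _)]
  exact chis_le_one _

theorem s1_norm (Lam φ : ℝ) (w ξ : EE n) : ‖s1 n Lam φ w ξ‖ ≤ 2 := by
  unfold s1
  refine (norm_add_le _ _).trans ?_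
  have h1 := sy_norm chis_nonneg chis_le_one Lam (2 * φ) w ξ
  have h2 := sy_norm chis_nonneg chis_le_one Lam (2 * φ) (-w) ξ
  linarith

/-- disjointness of the bands -/
theorem sy_s2_zero {Lam φ r : ℝ} (hr : 0 < r) (hrφ : r ≤ φ) {u w : EE n}
    (h1 : 5 * φ < ‖u - w‖) (h2 : 5 * φ < ‖u + w‖) (ξ : EE n) :
    sy n ch2 Lam r u ξ * s2 n Lam φ w ξ = 0 := by
  have hφ : 0 < φ := hr.trans_le hrφ
  have key : ∀ (ω a : EE n) (ρ : ℝ), 0 < ρ → eta0 ((‖ω - a‖ / ρ) ^ 2) ≠ 0 →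
      ‖ω - a‖ < 3 / 2 * ρ := by
    intro ω a ρ hρ h
    have h3 : (‖ω - a‖ / ρ) ^ 2 < 2 := by
      by_contra h4
      exact h (Pool.Agent.H48.TN.eta_zero (not_lt.1 h4))
    have h5 : ‖ω - a‖ / ρ < 3 / 2 := by
      by_contra h6
      push Not at h6
      nlinarith
    rwa [div_lt_iff₀ hρ] at h5
  by_cases hu : sy n ch2 Lam r u ξ = 0
  · rw [hu, zero_mul]
  · set ω : EE n := ‖ξ‖⁻¹ • ξ with hω
    have hu1 : ‖ω - u‖ < 3 / 2 * r := by
      apply key _ _ _ hr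
      intro h0
      apply hu
      unfold sy
      rw [← hω, h0, mul_zero, Complex.ofReal_zero]
    have e1 : sy n ch2 Lam (2 * φ) w ξ = 0 := by
      by_contra hne
      have hw1 : ‖ω - w‖ < 3 / 2 * (2 * φ) := by
        apply key _ _ _ (by linarith)
        intro h0
        apply hne
        unfold sy
        rw [← hω, h0, mul_zero, Complex.ofReal_zero]
      have h3 : ‖u - w‖ ≤ ‖ω - w‖ + ‖ω - u‖ := by
        have : u - w = (ω - w) - (ω - u) := by abel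
        rw [this]
        exact norm_sub_le _ _
      linarith
    have e2 : sy n ch2 Lam (2 * φ) (-w) ξ = 0 := by
      by_contra hne
      have hw1 : ‖ω - -w‖ < 3 / 2 * (2 * φ) := by
        apply key _ _ _ (by linarith)
        intro h0
        apply hne
        unfold sy
        rw [← hω, h0, mul_zero, Complex.ofReal_zero]
      have h3 : ‖u + w‖ ≤ ‖ω - -w‖ + ‖ω - u‖ := by
        have : u + w = (ω - -w) - (ω - u) := by abel
        rw [this]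
        exact norm_sub_le _ _
      linarith
    unfold s2
    rw [e1, e2, add_zero, mul_zero]

/-- properties of the two opposite bands -/
theorem vw_facts (hCNC : T_CNC) (hSEL : T_SEL) (hRAD : T_RAD) (n : ℕ) (hn : 1 ≤ n) :
    ∃ C : ℝ, 1 ≤ C ∧ ∀ (Lam φ M : ℝ) (w : EE n) (v : EE n → ℂ), 0 < Lam → 0 < φ → φ ≤ 1 / 16 →
    ‖w‖ = 1 → Measurable v → (∀ x, ‖v x‖ ≤ M) → (∀ x, C0 n Lam v x = v x) →
    Measurable (Aw n Lam φ w v) ∧ (∀ x, ‖Aw n Lam φ w v x‖ ≤ C * M) ∧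
    (∀ x, C0 n Lam (Aw n Lam φ w v) x = Aw n Lam φ w v x) ∧
    (∫⁻ x, ‖Aw n Lam φ w v x‖ₑ ^ 2 ≤ ENNReal.ofReal C * ∫⁻ x, ‖v x‖ₑ ^ 2) ∧
    (∀ x, v x = Aw n Lam φ w v x + cn (MK (sE n Lam φ w)) v x) ∧
    Measurable (cn (MK (sE n Lam φ w)) v) ∧
    (∫⁻ x, ‖cn (MK (sE n Lam φ w)) v x‖ₑ ^ 2 ≤ ENNReal.ofReal C * ∫⁻ x, ‖v x‖ₑ ^ 2) ∧
    ∀ r : ℝ, 0 < r → r ≤ φ → ∀ u : EE n, ‖u‖ = 1 → 5 * φ < ‖u - w‖ → 5 * φ < ‖u + w‖ →
      ∀ x, Qb n Lam r u (Aw n Lam φ w v) x = 0 := by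
  obtain ⟨C, hC, hS⟩ := hSEL n 0 ch2 hn rc_ch2
  obtain ⟨_, _, hSs⟩ := hSEL n 0 chis hn rc_chis
  obtain ⟨_, _, hR⟩ := hRAD n 0 chis hn rc_chis
  refine ⟨max 9 (2 * C), le_max_of_le_left (by norm_num), ?_⟩
  intro Lam φ M w v hLam hφ hφ16 hw hv hM hC0
  have hM0 : 0 ≤ M := (norm_nonneg _).trans (hM 0)
  have h2φ : 2 * φ ≤ 1 / 8 := by linarith
  have h2φ0 : 0 < 2 * φ := by linarith
  have hw' : ‖-w‖ = 1 := by rw [norm_neg, hw]
  have hcz : SC (Pool.Agent.H48.TN.cz n Lam) := (hR Lam hLam).1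
  have hv0 : cn (MK (Pool.Agent.H48.TN.cz n Lam)) v = v := funext hC0
  obtain ⟨hA1, -, hA3, -, -⟩ := hS Lam (2 * φ) w hLam h2φ0 h2φ hw
  obtain ⟨hB1, -, hB3, -, -⟩ := hS Lam (2 * φ) (-w) hLam h2φ0 h2φ hw'
  have hsA : SC (sy n chis Lam (2 * φ) w) := (hSs Lam (2 * φ) w hLam h2φ0 h2φ hw).1
  have hsB : SC (sy n chis Lam (2 * φ) (-w)) := (hSs Lam (2 * φ) (-w) hLam h2φ0 h2φ hw').1
  have hs2 : SC (s2 n Lam φ w) := SC_add hA1 hB1
  have hs1 : SC (s1 n Lam φ w) := SC_add hsA hsB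
  have hAw2 : Aw n Lam φ w v = cn (MK (s2 n Lam φ w)) v := by
    funext x
    exact (cn_add_ker hA1 hB1 hv hM x).symm
  have hcomm : (fun ξ => s2 n Lam φ w ξ * Pool.Agent.H48.TN.cz n Lam ξ) = s1 n Lam φ w := by
    funext ξ
    rw [mul_comm, cz_s2]
  have hAw1 : Aw n Lam φ w v = cn (MK (s1 n Lam φ w)) v := by
    rw [hAw2]
    funext x
    have h := (hCNC n (s2 n Lam φ w) (Pool.Agent.H48.TN.cz n Lam) v M hs2 hcz hv hM).2.2.2.2.1 x
    rw [hv0, hcomm] at h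
    exact h
  have hsE : SC (sE n Lam φ w) := by
    have h := SC_add hcz (SC_neg hs1)
    have e1 : (fun ξ => Pool.Agent.H48.TN.cz n Lam ξ + -s1 n Lam φ w ξ) = sE n Lam φ w :=
      funext fun ξ => (sE_eq Lam φ w ξ).symm
    rwa [e1] at h
  obtain ⟨-, -, c3, -, -, c6⟩ := hCNC n (s1 n Lam φ w) (Pool.Agent.H48.TN.cz n Lam) v M hs1 hcz hv hM
  obtain ⟨-, -, d3, -, -, d6⟩ := hCNC n (sE n Lam φ w) (Pool.Agent.H48.TN.cz n Lam) v M hsE hcz hv hM
  have hL1 : ∀ s : EE n → ℂ, SC s →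
      (∀ u : EE n, ∫⁻ x, ‖MK s x‖ₑ * ENNReal.ofReal ((1 + Lam * |inner ℝ x u|) ^ 0) ≤
        ENNReal.ofReal C → ∫ y, ‖MK s y‖ ≤ C) := by
    intro s _ u h
    have h1 : ∫⁻ x, ‖MK s x‖ₑ ≤ ENNReal.ofReal C := by
      simpa using h
    rw [integral_norm_eq_lintegral_enorm ((cnc_ker ‹SC s›).1.aestronglyMeasurable)]
    exact ENNReal.toReal_le_of_le_ofReal hC h1
  have hbA : ∀ x, ‖Qb n Lam (2 * φ) w v x‖ ≤ C * M := by
    intro x
    refine ((hCNC n _ (Pool.Agent.H48.TN.cz n Lam) v M hA1 hcz hv hM).2.2.2.1 x).trans ?_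
    exact mul_le_mul_of_nonneg_right (hL1 _ hA1 w hA3) hM0
  have hbB : ∀ x, ‖Qb n Lam (2 * φ) (-w) v x‖ ≤ C * M := by
    intro x
    refine ((hCNC n _ (Pool.Agent.H48.TN.cz n Lam) v M hB1 hcz hv hM).2.2.2.1 x).trans ?_
    exact mul_le_mul_of_nonneg_right (hL1 _ hB1 (-w) hB3) hM0
  refine ⟨?_, ?_, ?_, ?_, ?_, d3, ?_, ?_⟩
  · rw [hAw1]
    exact c3
  · intro x
    have h1 : ‖Aw n Lam φ w v x‖ ≤ 2 * C * M := by
      unfold Aw
      refine (norm_add_le _ _).trans ?_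
      have := hbA x
      have := hbB x
      linarith
    exact h1.trans (mul_le_mul_of_nonneg_right (le_max_right _ _) hM0)
  · intro x
    have h := (hCNC n (Pool.Agent.H48.TN.cz n Lam) (s2 n Lam φ w) v M hcz hs2 hv hM).2.2.2.2.1 x
    have e1 : (fun ξ => Pool.Agent.H48.TN.cz n Lam ξ * s2 n Lam φ w ξ) = s1 n Lam φ w :=
      funext fun ξ => cz_s2 Lam φ w ξ
    rw [e1, ← hAw2] at h
    rw [← hAw1] at h
    exact h
  · rw [hAw1]
    refine (c6 2 (s1_norm Lam φ w)).trans ?_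
    gcongr
    exact le_max_of_le_left (by norm_num)
  · intro x
    have e1 : (fun ξ => Pool.Agent.H48.TN.cz n Lam ξ + -s1 n Lam φ w ξ) = sE n Lam φ w :=
      funext fun ξ => (sE_eq Lam φ w ξ).symm
    have h := cn_add_ker hcz (SC_neg hs1) hv hM x
    rw [e1, cn_neg_ker, hv0, ← hAw1] at h
    rw [h]
    ring
  · refine (d6 3 fun ξ => ?_).trans ?_
    · rw [sE_eq]
      refine (norm_add_le _ _).trans ?_
      rw [norm_neg]
      have := cz_norm (n := n) Lam ξ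
      have := s1_norm Lam φ w ξ
      linarith
    · gcongr
      exact le_max_of_le_left (by norm_num)
  · intro r hr hrφ u hu h1 h2 x
    rw [hAw2]
    have hsr : SC (sy n ch2 Lam r u) := (hS Lam r u hLam hr (by linarith) hu).1
    have h := (hCNC n (sy n ch2 Lam r u) (s2 n Lam φ w) v M hsr hs2 hv hM).2.2.2.2.1 x
    have e1 : (fun ξ => sy n ch2 Lam r u ξ * s2 n Lam φ w ξ) = fun _ => (0 : ℂ) :=
      funext fun ξ => sy_s2_zero hr hrφ h1 h2 ξ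
    rw [e1, cn_zero_ker] at h
    exact h

end

end Pool.Agent.H54.TN
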