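import Pool.Agent.H14.TN.PHL

/-!
# tn_modules, module PHH: one piece, both blocks have high frequencies
-/

set_option autoImplicit false

namespace Pool.Agent.H54.TN

open MeasureTheory Set FourierTransform
open Pool.Agent.H93.TN Pool.Agent.H83.LS Pool.Agent.H93.AR Pool.Agent.H54.LS Pool.Agent.H14.LS
open Pool.Agent.H83.AR Pool.Agent.H84.BR Pool.Agent.H84.B2 Pool.Agent.H14.TN
open scoped ENNReal NNReal

/-- covers by a double family -/
theorem cover_sum2 {α : Type*} [MeasurableSpace α] {μ : Measure α} (f : α → ℝ≥0∞) (B : Set α)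
    (S T : ℕ → Set α) (J K : ℕ) (h : ∀ x ∈ B, ∃ j < J, x ∈ S j) (h' : ∀ x ∈ B, ∃ k < K, x ∈ T k) :
    ∫⁻ x in B, f x ∂μ ≤ ∑ j ∈ Finset.range J, ∑ k ∈ Finset.range K, ∫⁻ x in S j ∩ T k, f x ∂μ := by
  have h1 : ∫⁻ x in B, f x ∂μ ≤ ∑ j ∈ Finset.range J, ∫⁻ x in S j ∩ B, f x ∂μ :=
    cover_sum f B (fun j => S j ∩ B) J fun x hx => by
      obtain ⟨j, hj, hxj⟩ := h x hx
      exact ⟨j, hj, hxj, hx⟩
  refine h1.trans (Finset.sum_le_sum fun j _ => ?_)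
  exact cover_sum f (S j ∩ B) (fun k => S j ∩ T k) K fun x hx => by
    obtain ⟨k, hk, hxk⟩ := h' x hx.2
    exact ⟨k, hk, hx.1, hxk⟩

/-- size of the loss -/
theorem FR_le {n : ℕ} {q lam Lam φ : ℝ} (hn : 1 ≤ n) (hq : 2 < q) (hq3 : q ≤ 3) (hlam : 1 ≤ lam)
    (hsq : Real.sqrt lam ≤ Lam) (h4 : Lam ≤ 4 * lam) (hφ : dl lam Lam ≤ φ) (hφ1 : φ ≤ 1) :
    0 ≤ FR n q lam Lam φ ∧ FR n q lam Lam φ ≤ 64 ^ n * lam ^ n := by
  have hlam0 : 0 < lam := by linarith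
  have hsq0 : 0 < Real.sqrt lam := Real.sqrt_pos.2 hlam0
  have hsq1 : 1 ≤ Real.sqrt lam := Real.one_le_sqrt.2 hlam
  have hLam : 0 < Lam := hsq0.trans_le hsq
  have hdl : 0 < dl lam Lam := dl_pos' hlam hLam
  have hr1 : 1 ≤ φ / dl lam Lam := by rw [le_div_iff₀ hdl]; linarith
  have hs2 : Real.sqrt lam * Real.sqrt lam = lam := Real.mul_self_sqrt hlam0.le
  have hr2 : φ / dl lam Lam ≤ 64 * lam := by
    rw [div_le_iff₀ hdl]
    unfold dl
    have h1 : 64 * lam * (Real.sqrt lam / (16 * Lam)) = 4 * lam * Real.sqrt lam / Lam := by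
      field_simp
      ring
    rw [h1]
    have h2 : (1 : ℝ) ≤ 4 * lam * Real.sqrt lam / Lam := by
      rw [le_div_iff₀ hLam]
      nlinarith
    linarith
  refine ⟨Real.rpow_nonneg (by linarith) _, ?_⟩
  unfold FR
  have hn1 : (1 : ℝ) ≤ n := by exact_mod_cast hn
  have he : ((n : ℝ) - 1) * (q - 2) ≤ n := by nlinarith
  calc (φ / dl lam Lam) ^ (((n : ℝ) - 1) * (q - 2)) ≤ (φ / dl lam Lam) ^ (n : ℝ) :=
        Real.rpow_le_rpow_of_exponent_le hr1 he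
    _ = (φ / dl lam Lam) ^ n := Real.rpow_natCast _ _
    _ ≤ (64 * lam) ^ n := pow_le_pow_left₀ (by linarith) hr2 n
    _ = _ := mul_pow _ _ _

theorem pf_phh (hHH : T_HH) (hRGN : T_RGN) (hARI : T_ARI) : T_PHH := by
  intro a b q η ha hb hq2 hq3 hη
  set D : ℝ := 4 + 2 * ((a : ℝ) + b) with hD
  have hD0 : 0 < D := by positivity
  set ε : ℝ := min 1 (η / D) with hεd
  have hε : 0 < ε := lt_min one_pos (div_pos hη hD0)
  have hε1 : ε ≤ 1 := min_le_left _ _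
  have hεη : D * ε ≤ η := by
    have h1 : ε ≤ η / D := min_le_right _ _
    rw [le_div_iff₀ hD0] at h1
    linarith
  obtain ⟨C1, hC1⟩ := hHH a b q ε a ha hb hq2 hq3 hε hε1
  obtain ⟨Ca, hCa1, hCa⟩ := hRGN a ε ha hε
  obtain ⟨Cb, hCb1, hCb⟩ := hRGN b ε hb hε
  set C2 : ℝ := max Ca Cb with hC2d
  have hCaC : Ca ≤ C2 := le_max_left _ _
  have hCbC : Cb ≤ C2 := le_max_right _ _
  have hC21 : 1 ≤ C2 := hCa1.trans hCaC
  set G : ℝ := (4096 * C2) ^ ((a : ℝ) + b) with hG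
  have hG0 : 0 ≤ G := by positivity
  set G' : ℝ := G + 64 ^ a + 1 with hG'
  have hG'0 : 0 ≤ G' := by positivity
  refine ⟨C1 * Real.toNNReal (C2 * C2 * G'), ?_⟩
  intro lam Lam1 Lam2 L A h hlam hsq1 h41 hsq2 h42 hL hh
  have hlam0 : 0 < lam := by linarith
  have hsq0 : 0 < Real.sqrt lam := Real.sqrt_pos.2 hlam0
  have hLam1 : 0 < Lam1 := hsq0.trans_le hsq1
  have hLam2 : 0 < Lam2 := hsq0.trans_le hsq2
  have hA : 0 ≤ A := (norm_nonneg _).trans (hh.2.2 0)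
  have hQ : 0 ≤ A ^ (q - 2) := Real.rpow_nonneg hA _
  set E : ℝ := lam ^ (ExR ((a : ℝ) + b - 1) q) * L ^ (2 - q / 2) with hE
  have hExR : 0 ≤ ExR ((a : ℝ) + b - 1) q := le_max_left _ _
  have hE1 : 1 ≤ E := by
    have h1 : 1 ≤ lam ^ (ExR ((a : ℝ) + b - 1) q) := Real.one_le_rpow hlam hExR
    have h2 : 1 ≤ L ^ (2 - q / 2) := Real.one_le_rpow hL (by linarith)
    exact one_le_mul_of_one_le_of_one_le h1 h2
  set I : ℝ≥0∞ := ∫⁻ x, ‖h x‖ₑ ^ 2 with hI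
  set K0 : ℝ := G' * lam ^ (2 * ε + 2 * ε * ((a : ℝ) + b)) * E with hK0
  have hK00 : 0 ≤ K0 := by positivity
  set F : ℝ → EE (a + b) → ℝ≥0∞ := fun t x =>
    ‖MM (mc a b (fun s => chi (s / Lam1)) (fun s => chi (s / Lam2)) lam t)
      (A1 a b L (A2 a b L h)) x‖ₑ ^ q with hF
  have hFm : Measurable (Function.uncurry F) := by
    have h1 : Measurable (fun s : ℝ => chi (s / Lam1)) :=
      (chi_smooth.continuous.comp (continuous_id.div_const _)).measurable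
    have h2 : Measurable (fun s : ℝ => chi (s / Lam2)) :=
      (chi_smooth.continuous.comp (continuous_id.div_const _)).measurable
    exact (MM_meas (mc_meas' a b h1 h2 lam) (phl_fourier_meas _)).enorm.pow_const _
  -- one region
  have hreg : ∀ ρ₁ φ₁ σ₁ ρ₂ φ₂ σ₂ : ℝ,
      (RG a ε lam Lam1 L ρ₁ φ₁ ∧ 1 / Lam1 ≤ σ₁ ∧ dl lam Lam1 ≤ φ₁ ∧ φ₁ ≤ 1 ∧
        (2 ≤ a → (φ₁ / dl lam Lam1) ^ 2 * min 1 (σ₁ * lam / Lam1) ≤ Ca * lam ^ (2 * ε) * L)) →
      (RG b ε lam Lam2 L ρ₂ φ₂ ∧ 1 / Lam2 ≤ σ₂ ∧ dl lam Lam2 ≤ φ₂ ∧ φ₂ ≤ 1 ∧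
        (2 ≤ b → (φ₂ / dl lam Lam2) ^ 2 * min 1 (σ₂ * lam / Lam2) ≤ Cb * lam ^ (2 * ε) * L)) →
      ∫⁻ t in Icc (1 : ℝ) 2, ∫⁻ x in {x : EE (a + b) | (ρ₁ ≤ ‖p1 a b x‖ ∧ ‖p1 a b x‖ ≤ σ₁) ∧
        (ρ₂ ≤ ‖p2 a b x‖ ∧ ‖p2 a b x‖ ≤ σ₂)}, F t x ≤
        C1 * ENNReal.ofReal (K0 * A ^ (q - 2)) * I := by
    rintro ρ₁ φ₁ σ₁ ρ₂ φ₂ σ₂ ⟨hRG1, hσ1, hφ1, hφ11, hsize1⟩ ⟨hRG2, hσ2, hφ2, hφ21, hsize2⟩
    have hσ10 : 0 < σ₁ := lt_of_lt_of_le (by positivity) hσ1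
    have hσ20 : 0 < σ₂ := lt_of_lt_of_le (by positivity) hσ2
    refine (hC1 lam Lam1 Lam2 L ρ₁ φ₁ σ₁ ρ₂ φ₂ σ₂ A h hlam hsq1 h41 hsq2 h42 hL hσ1 hσ2 hRG1 hRG2
      hh).trans ?_
    set T1 : ℝ := min 1 (σ₁ * lam / Lam1) with hT1
    set T2 : ℝ := min 1 (σ₂ * lam / Lam2) with hT2
    have hT10 : 0 < T1 := lt_min one_pos (by positivity)
    have hT11 : T1 ≤ 1 := min_le_left _ _
    have hT20 : 0 < T2 := lt_min one_pos (by positivity)
    have hT21 : T2 ≤ 1 := min_le_left _ _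
    have hmin : min 1 (min (σ₁ * lam / Lam1) (σ₂ * lam / Lam2)) = min 1 (min T1 T2) := by
      rw [hT1, hT2]
      apply le_antisymm
      · refine le_min (min_le_left _ _) (le_min (le_min (min_le_left _ _) ?_)
          (le_min (min_le_left _ _) ?_))
        · exact (min_le_right _ _).trans (min_le_left _ _)
        · exact (min_le_right _ _).trans (min_le_right _ _)
      · refine le_min (min_le_left _ _) (le_min ?_ ?_)
        · exact (min_le_right _ _).trans ((min_le_left _ _).trans (min_le_right _ _))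
        · exact (min_le_right _ _).trans ((min_le_right _ _).trans (min_le_right _ _))
    have hpow : 0 ≤ lam ^ (2 * ε) * L := by positivity
    have hA2 := hARI a b q ha hb hq2 hq3 C2 lam L ε Lam1 Lam2 φ₁ φ₂ T1 T2 hC21 hlam hL hε hsq1 h41
      hsq2 h42 hφ1 hφ11 hφ2 hφ21 hT10 hT11 hT20 hT21
      (fun h2 => (hsize1 h2).trans (by
        rw [mul_assoc, mul_assoc]
        exact mul_le_mul_of_nonneg_right hCaC hpow))
      (fun h2 => (hsize2 h2).trans (by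
        rw [mul_assoc, mul_assoc]
        exact mul_le_mul_of_nonneg_right hCbC hpow))
    obtain ⟨hf1, hf2⟩ := FR_le ha hq2 hq3 hlam hsq1 h41 hφ1 hφ11
    have hFRlam : FR a q lam Lam1 φ₁ * (lam ^ a)⁻¹ ≤ 64 ^ a := by
      have hp : 0 < lam ^ a := by positivity
      rw [← div_eq_mul_inv, div_le_iff₀ hp]
      exact hf2
    have hlaminv : (lam ^ a)⁻¹ ≤ 1 := inv_le_one_of_one_le₀ (one_le_pow₀ hlam)
    have h5 : lam ^ (2 * ε) * FR a q lam Lam1 φ₁ * FR b q lam Lam2 φ₂ *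
        min 1 (min (σ₁ * lam / Lam1) (σ₂ * lam / Lam2)) ^ (2 - q / 2) +
        FR a q lam Lam1 φ₁ * (lam ^ a)⁻¹ + (lam ^ a)⁻¹ ≤ K0 := by
      rw [hmin]
      have e1 : lam ^ (2 * ε + 2 * ε * ((a : ℝ) + b)) =
          lam ^ (2 * ε) * lam ^ (2 * ε * ((a : ℝ) + b)) := Real.rpow_add hlam0 _ _
      have h6 : 1 ≤ lam ^ (2 * ε + 2 * ε * ((a : ℝ) + b)) :=
        Real.one_le_rpow hlam (by positivity)
      have h7 : 1 ≤ lam ^ (2 * ε + 2 * ε * ((a : ℝ) + b)) * E :=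
        one_le_mul_of_one_le_of_one_le h6 hE1
      have h8 : lam ^ (2 * ε) * FR a q lam Lam1 φ₁ * FR b q lam Lam2 φ₂ *
          min 1 (min T1 T2) ^ (2 - q / 2) ≤
          G * (lam ^ (2 * ε + 2 * ε * ((a : ℝ) + b)) * E) := by
        rw [e1]
        calc lam ^ (2 * ε) * FR a q lam Lam1 φ₁ * FR b q lam Lam2 φ₂ *
              min 1 (min T1 T2) ^ (2 - q / 2)
            = lam ^ (2 * ε) * (FR a q lam Lam1 φ₁ * FR b q lam Lam2 φ₂ *
              min 1 (min T1 T2) ^ (2 - q / 2)) := by ring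
          _ ≤ lam ^ (2 * ε) * (G * lam ^ (2 * ε * ((a : ℝ) + b)) * E) := by
              refine mul_le_mul_of_nonneg_left hA2 (by positivity)
          _ = _ := by ring
      have h9 : FR a q lam Lam1 φ₁ * (lam ^ a)⁻¹ ≤
          64 ^ a * (lam ^ (2 * ε + 2 * ε * ((a : ℝ) + b)) * E) := by
        refine hFRlam.trans ?_
        have : (0 : ℝ) < 64 ^ a := by positivity
        nlinarith
      have h10 : (lam ^ a)⁻¹ ≤ lam ^ (2 * ε + 2 * ε * ((a : ℝ) + b)) * E := hlaminv.trans h7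
      rw [hK0, hG']
      calc _ ≤ G * (lam ^ (2 * ε + 2 * ε * ((a : ℝ) + b)) * E) +
            64 ^ a * (lam ^ (2 * ε + 2 * ε * ((a : ℝ) + b)) * E) +
            lam ^ (2 * ε + 2 * ε * ((a : ℝ) + b)) * E := add_le_add (add_le_add h8 h9) h10
        _ = _ := by ring
    gcongr
  -- balls
  have key : ∀ n : ℕ, ∫⁻ t in Icc (1 : ℝ) 2, ∫⁻ x in {x : EE (a + b) |
      ‖p1 a b x‖ ≤ (n : ℝ) + 4 ∧ ‖p2 a b x‖ ≤ (n : ℝ) + 4},
      F t x ≤ ((C1 * Real.toNNReal (C2 * C2 * G') : ℝ≥0) : ℝ≥0∞) *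
        ENNReal.ofReal (lam ^ (ExR ((a : ℝ) + b - 1) q + η) * L ^ (2 - q / 2) * A ^ (q - 2)) *
        I := by
    intro n
    have hn4 : (4 : ℝ) ≤ (n : ℝ) + 4 := by
      have : (0 : ℝ) ≤ n := n.cast_nonneg
      linarith
    obtain ⟨J, ρ, φ, σ, hJ, hcov, hr⟩ := hCa lam Lam1 L ((n : ℝ) + 4) hlam hsq1 h41 hL hn4
    obtain ⟨J', ρ', φ', σ', hJ', hcov', hr'⟩ := hCb lam Lam2 L ((n : ℝ) + 4) hlam hsq2 h42 hL hn4
    set S : ℕ → Set (EE (a + b)) := fun j =>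
      {x : EE (a + b) | ρ j ≤ ‖p1 a b x‖ ∧ ‖p1 a b x‖ ≤ σ j} with hS
    set T : ℕ → Set (EE (a + b)) := fun j =>
      {x : EE (a + b) | ρ' j ≤ ‖p2 a b x‖ ∧ ‖p2 a b x‖ ≤ σ' j} with hT
    have hSm : ∀ X : Set (EE (a + b)), Measurable fun t => ∫⁻ x in X, F t x := fun X =>
      Measurable.lintegral_prod_right' (f := Function.uncurry F) hFm
    have h1 : ∀ t, ∫⁻ x in {x : EE (a + b) | ‖p1 a b x‖ ≤ (n : ℝ) + 4 ∧
        ‖p2 a b x‖ ≤ (n : ℝ) + 4}, F t x ≤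
        ∑ j ∈ Finset.range J, ∑ k ∈ Finset.range J', ∫⁻ x in S j ∩ T k, F t x := fun t =>
      cover_sum2 _ _ S T J J' (fun x hx => by
        obtain ⟨j, hj, h2, h3⟩ := hcov ‖p1 a b x‖ (norm_nonneg _) hx.1
        exact ⟨j, hj, h2, h3⟩) (fun x hx => by
        obtain ⟨j, hj, h2, h3⟩ := hcov' ‖p2 a b x‖ (norm_nonneg _) hx.2
        exact ⟨j, hj, h2, h3⟩)
    calc ∫⁻ t in Icc (1 : ℝ) 2, ∫⁻ x in {x : EE (a + b) | ‖p1 a b x‖ ≤ (n : ℝ) + 4 ∧
        ‖p2 a b x‖ ≤ (n : ℝ) + 4}, F t x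
        ≤ ∫⁻ t in Icc (1 : ℝ) 2, ∑ j ∈ Finset.range J, ∑ k ∈ Finset.range J',
            ∫⁻ x in S j ∩ T k, F t x := lintegral_mono fun t => h1 t
      _ = ∑ j ∈ Finset.range J, ∫⁻ t in Icc (1 : ℝ) 2, ∑ k ∈ Finset.range J',
            ∫⁻ x in S j ∩ T k, F t x :=
          lintegral_finsetSum _ fun j _ => Finset.measurable_fun_sum _ fun k _ => hSm _
      _ = ∑ j ∈ Finset.range J, ∑ k ∈ Finset.range J', ∫⁻ t in Icc (1 : ℝ) 2,
            ∫⁻ x in S j ∩ T k, F t x := by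
          refine Finset.sum_congr rfl fun j _ => ?_
          exact lintegral_finsetSum _ fun k _ => hSm _
      _ ≤ ∑ j ∈ Finset.range J, ∑ k ∈ Finset.range J',
            C1 * ENNReal.ofReal (K0 * A ^ (q - 2)) * I := by
          refine Finset.sum_le_sum fun j hj => Finset.sum_le_sum fun k hk => ?_
          exact hreg _ _ _ _ _ _ (hr j (Finset.mem_range.1 hj)) (hr' k (Finset.mem_range.1 hk))
      _ = ENNReal.ofReal (J : ℝ) * (ENNReal.ofReal (J' : ℝ) *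
            (C1 * ENNReal.ofReal (K0 * A ^ (q - 2)) * I)) := by
          rw [Finset.sum_const, Finset.sum_const, Finset.card_range, Finset.card_range,
            nsmul_eq_mul, nsmul_eq_mul, ENNReal.ofReal_natCast, ENNReal.ofReal_natCast]
      _ ≤ ENNReal.ofReal (C2 * lam ^ ε) * (ENNReal.ofReal (C2 * lam ^ ε) *
            (C1 * ENNReal.ofReal (K0 * A ^ (q - 2)) * I)) := by
          have hJ2 : (J : ℝ) ≤ C2 * lam ^ ε :=
            hJ.trans (mul_le_mul_of_nonneg_right hCaC (by positivity))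
          have hJ2' : (J' : ℝ) ≤ C2 * lam ^ ε :=
            hJ'.trans (mul_le_mul_of_nonneg_right hCbC (by positivity))
          gcongr
      _ = C1 * (ENNReal.ofReal (C2 * lam ^ ε) * (ENNReal.ofReal (C2 * lam ^ ε) *
            ENNReal.ofReal (K0 * A ^ (q - 2)))) * I := by
          ring
      _ ≤ C1 * (ENNReal.ofReal (C2 * C2 * G') * ENNReal.ofReal
            (lam ^ (ExR ((a : ℝ) + b - 1) q + η) * L ^ (2 - q / 2) * A ^ (q - 2))) * I := by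
          rw [← ENNReal.ofReal_mul (by positivity), ← ENNReal.ofReal_mul (by positivity),
            ← ENNReal.ofReal_mul (by positivity)]
          gcongr (C1 : ℝ≥0∞) * ENNReal.ofReal ?_ * _
          have e2 : lam ^ ε * (lam ^ ε * lam ^ (2 * ε + 2 * ε * ((a : ℝ) + b))) =
              lam ^ (D * ε) := by
            rw [← Real.rpow_add hlam0, ← Real.rpow_add hlam0]
            congr 1
            rw [hD]
            ring
          have h6 : lam ^ (D * ε) ≤ lam ^ η := Real.rpow_le_rpow_of_exponent_le hlam hεη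
          have e3 : lam ^ (ExR ((a : ℝ) + b - 1) q + η) =
              lam ^ (ExR ((a : ℝ) + b - 1) q) * lam ^ η := Real.rpow_add hlam0 _ _
          have e4 : C2 * lam ^ ε * (C2 * lam ^ ε * (K0 * A ^ (q - 2))) =
              (C2 * C2 * G' * E * A ^ (q - 2)) * lam ^ (D * ε) := by
            rw [hK0, ← e2]
            ring
          have e5 : C2 * C2 * G' * (lam ^ (ExR ((a : ℝ) + b - 1) q + η) * L ^ (2 - q / 2) *
              A ^ (q - 2)) = (C2 * C2 * G' * E * A ^ (q - 2)) * lam ^ η := by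
            rw [e3, hE]
            ring
          rw [e4, e5]
          exact mul_le_mul_of_nonneg_left h6 (by positivity)
      _ = _ := by
          rw [ENNReal.coe_mul, ← mul_assoc (C1 : ℝ≥0∞)]
          rfl
  refine mono_limit F hFm (fun n : ℕ => {x : EE (a + b) | ‖p1 a b x‖ ≤ (n : ℝ) + 4 ∧
    ‖p2 a b x‖ ≤ (n : ℝ) + 4}) ?_ ?_ _ key
  · intro m n hmn x hx
    have h1 : ‖p1 a b x‖ ≤ (m : ℝ) + 4 := hx.1
    have h1' : ‖p2 a b x‖ ≤ (m : ℝ) + 4 := hx.2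
    have h2 : (m : ℝ) ≤ n := by exact_mod_cast hmn
    exact ⟨show ‖p1 a b x‖ ≤ (n : ℝ) + 4 by linarith, show ‖p2 a b x‖ ≤ (n : ℝ) + 4 by linarith⟩
  · rw [eq_univ_iff_forall]
    intro x
    obtain ⟨n, hn⟩ := exists_nat_ge (max ‖p1 a b x‖ ‖p2 a b x‖)
    have h1 : ‖p1 a b x‖ ≤ n := (le_max_left _ _).trans hn
    have h2 : ‖p2 a b x‖ ≤ n := (le_max_right _ _).trans hn
    exact mem_iUnion.2 ⟨n, show ‖p1 a b x‖ ≤ (n : ℝ) + 4 by linarith,
      show ‖p2 a b x‖ ≤ (n : ℝ) + 4 by linarith⟩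

end Pool.Agent.H54.TN
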