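import Pool.Agent.H93.TN.TargetsD
import Pool.Agent.H84.BR.SGA

/-!
# MP_ee74d2_an, board tn, module SG3: strong type after angular averages at scale `1/L`
-/

set_option autoImplicit false

namespace Pool.Agent.H54.TN

open MeasureTheory Set FourierTransform
open Pool.Agent.H83.LS Pool.Agent.H93.AR Pool.Agent.H54.LS Pool.Agent.H14.LS Pool.Agent.H83.AR
open Pool.Agent.H84.BR Pool.Agent.H84.B2 Pool.Agent.H93.TN Pool.Agent.H19.LS
open scoped ENNReal NNReal ContDiff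

/-- exponent of `L` -/
noncomputable def tau (q : ℝ) : ℝ := max (2 - q / 2) (1 / 2)

/-- restricted type hypothesis -/
def MAL3 (d : ℕ) (P : ℝ → (EE d → ℂ) → EE d → ℂ) : Prop :=
  ∀ q η : ℝ, 2 < q → q ≤ 3 → 0 < η →
  ∃ C : ℝ≥0, ∀ (lam L A : ℝ) (f : EE d → ℂ), 1 ≤ lam → 1 ≤ L → BCd A f →
  ∫⁻ t in Icc (1 : ℝ) 2, ∫⁻ x, ‖MM (mT lam t) (P L f) x‖ₑ ^ q ≤
    C * ENNReal.ofReal (lam ^ (ExR ((d : ℝ) - 1) q + η) * L ^ (2 - q / 2) * A ^ (q - 2)) *
      ∫⁻ x, ‖f x‖ₑ ^ 2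

theorem restricted3 (d : ℕ) (hd : 3 ≤ d) (P : ℝ → (EE d → ℂ) → EE d → ℂ)
    (hP : ∀ L, 1 ≤ L → GoodOp (P L)) (hM : MAL3 d P) (hRADL : T_RADL) (hPLE : T_PLE)
    (q η : ℝ) (hq : 2 < q) (hη : 0 < η) : ∃ C : ℝ, 0 ≤ C ∧ ∀ (lam L A : ℝ)
    (f : EE d → ℂ), 1 ≤ lam → 1 ≤ L → BCd A f →
    ∫⁻ p, ‖MM (mT lam p.1) (P L f) p.2‖ₑ ^ q ∂(stm d) ≤
      ENNReal.ofReal (C * (lam ^ (ExR ((d : ℝ) - 1) q + η) * L ^ (tau q) * A ^ (q - 2))) *
        ∫⁻ x, ‖f x‖ₑ ^ 2 := by
  set N : ℝ := (d : ℝ) - 1 with hN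
  have hd3 : (3 : ℝ) ≤ d := by exact_mod_cast hd
  have hn2 : (2 : ℝ) ≤ N := by rw [hN]; linarith
  have hn0 : (0 : ℝ) < N := by linarith
  have hmeas : ∀ (r lam : ℝ) (f : EE d → ℂ), 1 ≤ lam → Integrable f →
      Measurable fun p : ℝ × EE d => ‖MM (mT lam p.1) f p.2‖ₑ ^ r := fun r lam f hl hf =>
    (MM_cont lam (by linarith) f hf).measurable.enorm.pow_const r
  rcases le_or_gt q 3 with h | h
  · obtain ⟨C, hC⟩ := hM q η hq h hη
    refine ⟨C, C.2, fun lam L A f hl hL hf => ?_⟩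
    have hA0 : 0 ≤ A := (norm_nonneg _).trans (hf.2.1 0)
    have hPi := (hP L hL).int f hf.1 (BCd_int A f hf)
    rw [← st_eq _ (hmeas q lam _ hl hPi)]
    refine (hC lam L A f hl hL hf).trans ?_
    apply mul_le_mul' _ le_rfl
    rw [← ENNReal.ofReal_coe_nnreal, ← ENNReal.ofReal_mul (NNReal.coe_nonneg C)]
    apply ENNReal.ofReal_le_ofReal
    have h1 : L ^ (2 - q / 2) ≤ L ^ (tau q) :=
      Real.rpow_le_rpow_of_exponent_le hL (le_max_left _ _)
    have h2 : (0 : ℝ) ≤ C := C.2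
    have h3 : 0 ≤ A ^ (q - 2) := Real.rpow_nonneg hA0 _
    have h4 : 0 ≤ lam ^ (ExR N q + η) := Real.rpow_nonneg (by linarith) _
    exact mul_le_mul_of_nonneg_left (mul_le_mul_of_nonneg_right
      (mul_le_mul_of_nonneg_left h1 h4) h3) h2
  · obtain ⟨C, hC⟩ := hM 3 η (by norm_num) le_rfl hη
    obtain ⟨M, C1, hC1⟩ := hRADL d (by omega)
    obtain ⟨B, hB0, hB⟩ := chi_CB M
    have hC00 : (0 : ℝ) ≤ C := C.2
    refine ⟨(|C1 * B| * 3 ^ (N / 2)) ^ (q - 3) * C, by positivity, fun lam L A f hl hL hf => ?_⟩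
    have hA0 : 0 ≤ A := (norm_nonneg _).trans (hf.2.1 0)
    have hl0 : 0 < lam := by linarith
    have hL0 : 0 < L := by linarith
    have hfi := BCd_int A f hf
    have hPi := (hP L hL).int f hf.1 hfi
    have hPm := (hP L hL).meas f hf.1
    have hPs := (hP L hL).sup f A hf.1 hf.2.1
    -- the sup bound
    have hsup : ∀ t ∈ Icc (1 : ℝ) 2, ∀ x, ‖MM (mT lam t) (P L f) x‖ₑ ≤
        ENNReal.ofReal (|C1 * B| * 3 ^ (N / 2) * lam ^ (N / 2) * A) := by
      intro t ht x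
      refine (MM_sup lam hl0 hPLE t (P L f) hPi hPm A hPs x).trans ?_
      rw [ENNReal.ofReal_mul (by positivity)]
      apply mul_le_mul' _ le_rfl
      have h1 := (hC1 (fun σ => ((chi σ : ℝ) : ℂ)) B lam t hB hl0 (by linarith [ht.1])).1
      refine h1.trans (ENNReal.ofReal_le_ofReal ?_)
      have h2 : (1 + lam * t) ^ (((d : ℝ) - 1) / 2) ≤ 3 ^ (N / 2) *
          lam ^ (N / 2) := by
        rw [← Real.mul_rpow (by norm_num) hl0.le]
        apply Real.rpow_le_rpow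
        · have := ht.1
          positivity
        · nlinarith [ht.2]
        · positivity
      calc C1 * B * (1 + lam * t) ^ (((d : ℝ) - 1) / 2)
          ≤ |C1 * B| * (1 + lam * t) ^ (((d : ℝ) - 1) / 2) := by
            apply mul_le_mul_of_nonneg_right (le_abs_self _)
            apply Real.rpow_nonneg
            have := ht.1
            positivity
        _ ≤ |C1 * B| * (3 ^ (N / 2) * lam ^ (N / 2)) :=
            mul_le_mul_of_nonneg_left h2 (abs_nonneg _)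
        _ = _ := by ring
    set S : ℝ := |C1 * B| * 3 ^ (N / 2) * lam ^ (N / 2) * A with hS
    have hS0 : 0 ≤ S := by positivity
    have hqr : 0 ≤ q - 3 := by linarith
    have hpt : ∀ᵐ p ∂(stm d), ‖MM (mT lam p.1) (P L f) p.2‖ₑ ^ q ≤
        ENNReal.ofReal (S ^ (q - 3)) * ‖MM (mT lam p.1) (P L f) p.2‖ₑ ^ (3 : ℝ) := by
      have h1 : ∀ᵐ p ∂(stm d), p.1 ∈ Icc (1 : ℝ) 2 := by
        have := (Measure.quasiMeasurePreserving_fst (μ := volume.restrict (Icc (1 : ℝ) 2))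
          (ν := (volume : Measure (EE d)))).ae (ae_restrict_mem measurableSet_Icc)
        exact this
      filter_upwards [h1] with p hp
      have h2 : ‖MM (mT lam p.1) (P L f) p.2‖ₑ ^ q = ‖MM (mT lam p.1) (P L f) p.2‖ₑ ^ (q - 3) *
          ‖MM (mT lam p.1) (P L f) p.2‖ₑ ^ (3 : ℝ) := by
        rw [← ENNReal.rpow_add_of_nonneg _ _ hqr (by norm_num)]
        congr 1
        ring
      rw [h2, ← ENNReal.ofReal_rpow_of_nonneg hS0 hqr]
      apply mul_le_mul' _ le_rfl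
      exact ENNReal.rpow_le_rpow (hsup p.1 hp p.2) hqr
    calc ∫⁻ p, ‖MM (mT lam p.1) (P L f) p.2‖ₑ ^ q ∂(stm d)
        ≤ ∫⁻ p, ENNReal.ofReal (S ^ (q - 3)) * ‖MM (mT lam p.1) (P L f) p.2‖ₑ ^ (3 : ℝ)
            ∂(stm d) := lintegral_mono_ae hpt
      _ = ENNReal.ofReal (S ^ (q - 3)) *
          ∫⁻ p, ‖MM (mT lam p.1) (P L f) p.2‖ₑ ^ (3 : ℝ) ∂(stm d) :=
          lintegral_const_mul' _ _ ENNReal.ofReal_ne_top
      _ ≤ ENNReal.ofReal (S ^ (q - 3)) * (C * ENNReal.ofReal (lam ^ (ExR N 3 + η) *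
          L ^ (2 - (3 : ℝ) / 2) * A ^ ((3 : ℝ) - 2)) * ∫⁻ x, ‖f x‖ₑ ^ 2) := by
          apply mul_le_mul' le_rfl
          rw [← st_eq _ (hmeas 3 lam _ hl hPi)]
          exact hC lam L A f hl hL hf
      _ = ENNReal.ofReal (S ^ (q - 3) * (C * (lam ^ (ExR N 3 + η) *
          L ^ (2 - (3 : ℝ) / 2) * A ^ ((3 : ℝ) - 2)))) * ∫⁻ x, ‖f x‖ₑ ^ 2 := by
          have e0 : ENNReal.ofReal (S ^ (q - 3) * (C * (lam ^ (ExR N 3 + η) *
              L ^ (2 - (3 : ℝ) / 2) * A ^ ((3 : ℝ) - 2)))) =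
              ENNReal.ofReal (S ^ (q - 3)) *
                (C * ENNReal.ofReal (lam ^ (ExR N 3 + η) *
                  L ^ (2 - (3 : ℝ) / 2) * A ^ ((3 : ℝ) - 2))) := by
            rw [ENNReal.ofReal_mul (Real.rpow_nonneg hS0 _),
              ENNReal.ofReal_mul (NNReal.coe_nonneg C), ENNReal.ofReal_coe_nnreal]
          rw [e0, ← mul_assoc]
      _ ≤ _ := by
          apply mul_le_mul' _ le_rfl
          apply ENNReal.ofReal_le_ofReal
          have e1 : S ^ (q - 3) = (|C1 * B| * 3 ^ (N / 2)) ^ (q - 3) *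
              (lam ^ (N / 2)) ^ (q - 3) * A ^ (q - 3) := by
            rw [hS, Real.mul_rpow (by positivity) hA0, Real.mul_rpow (by positivity) (by positivity)]
          have e2 : (lam ^ (N / 2)) ^ (q - 3) = lam ^ (N / 2 * (q - 3)) := by
            rw [← Real.rpow_mul hl0.le]
          have hE3 : ExR N 3 = N / 2 - 1 := by
            unfold ExR
            rw [max_eq_right (by linarith)]
            ring
          have e3 : A ^ (q - 3) * A ^ ((3 : ℝ) - 2) = A ^ (q - 2) := by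
            rw [← Real.rpow_add_of_nonneg hA0 hqr (by norm_num)]
            congr 1
            ring
          have e4 : lam ^ (N / 2 * (q - 3)) * lam ^ (ExR N 3 + η) ≤ lam ^ (ExR N q + η) := by
            rw [← Real.rpow_add hl0]
            apply Real.rpow_le_rpow_of_exponent_le hl
            have h5 : N * (q / 2 - 1) - 1 ≤ ExR N q := le_max_right _ _
            rw [hE3]
            linarith
          have e5 : L ^ (2 - (3 : ℝ) / 2) ≤ L ^ (tau q) := by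
            apply Real.rpow_le_rpow_of_exponent_le hL
            have h6 : (1 : ℝ) / 2 ≤ tau q := le_max_right _ _
            linarith
          calc S ^ (q - 3) * (C * (lam ^ (ExR N 3 + η) * L ^ (2 - (3 : ℝ) / 2) *
                A ^ ((3 : ℝ) - 2)))
              = (|C1 * B| * 3 ^ (N / 2)) ^ (q - 3) * C *
                (lam ^ (N / 2 * (q - 3)) * lam ^ (ExR N 3 + η)) * L ^ (2 - (3 : ℝ) / 2) *
                (A ^ (q - 3) * A ^ ((3 : ℝ) - 2)) := by
                rw [e1, e2]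
                ring
            _ ≤ (|C1 * B| * 3 ^ (N / 2)) ^ (q - 3) * C * lam ^ (ExR N q + η) * L ^ (tau q) *
                A ^ (q - 2) := by
                rw [e3]
                gcongr
            _ = _ := by ring

/-- strong type for bounded functions with compact support -/
theorem strong3 (hMARC : T_MARC) (hRADL : T_RADL) (hPLE : T_PLE) (d : ℕ) (hd : 3 ≤ d)
    (P : ℝ → (EE d → ℂ) → EE d → ℂ) (hP : ∀ L, 1 ≤ L → GoodOp (P L)) (hM : MAL3 d P)
    (p η : ℝ) (hp : 2 + 2 / ((d : ℝ) - 1) ≤ p) (hη : 0 < η) : ∃ C : ℝ≥0, ∀ (lam L A : ℝ)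
    (f : EE d → ℂ), 1 ≤ lam → 1 ≤ L → L ≤ lam ^ 2 → BCd A f →
    ∫⁻ q, ‖MM (mT lam q.1) (P L f) q.2‖ₑ ^ p ∂(stm d) ≤
      C * ENNReal.ofReal (lam ^ (((d : ℝ) - 1) * (p / 2 - 1) - 1 + η) * L ^ (tau p)) *
        ∫⁻ x, ‖f x‖ₑ ^ p := by
  set N : ℝ := (d : ℝ) - 1 with hN
  have hd3 : (3 : ℝ) ≤ d := by exact_mod_cast hd
  have hn0 : (0 : ℝ) < N := by rw [hN]; linarith
  have h2n : 0 < 2 / N := by positivity
  have hp2 : 2 < p := by linarith
  have hE : 0 ≤ N * (p / 2 - 1) - 1 := by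
    have h1 : 1 / N ≤ p / 2 - 1 := by
      have : 2 / N = 2 * (1 / N) := by ring
      rw [this] at hp
      linarith
    have h2 : N * (1 / N) = 1 := by field_simp
    nlinarith
  set e0 : ℝ := min ((p - 2) / 2) (η / (2 * (N + 8))) with he0
  have he0pos : 0 < e0 := lt_min (by linarith) (by positivity)
  have he1 : e0 ≤ (p - 2) / 2 := min_le_left _ _
  have he2 : e0 * (N + 8) ≤ η / 2 := by
    have h1 : e0 ≤ η / (2 * (N + 8)) := min_le_right _ _
    calc e0 * (N + 8) ≤ η / (2 * (N + 8)) * (N + 8) :=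
          mul_le_mul_of_nonneg_right h1 (by linarith)
      _ = η / 2 := by field_simp
  set q₁ := p - e0 with hq₁
  set q₂ := p + e0 with hq₂
  obtain ⟨C₁, hC₁0, hC₁⟩ := restricted3 d hd P hP hM hRADL hPLE q₁ (η / 2) (by linarith)
    (by positivity)
  obtain ⟨C₂, hC₂0, hC₂⟩ := restricted3 d hd P hP hM hRADL hPLE q₂ (η / 2) (by linarith)
    (by positivity)
  obtain ⟨C, hC⟩ := hMARC q₁ p q₂ (by linarith) (by linarith) (by linarith)
  set C' : ℝ := C₁ * 2 ^ q₁ + C₂ * 2 ^ q₂ with hC'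
  have hC'0 : 0 ≤ C' := by positivity
  refine ⟨C * C'.toNNReal, fun lam L A f hl hL hL2 hf => ?_⟩
  have hl0 : 0 < lam := by linarith
  have hL0 : 0 < L := by linarith
  have hEx1 : ExR N q₁ ≤ N * (p / 2 - 1) - 1 + N * e0 / 2 := by
    apply max_le
    · have : 0 ≤ N * e0 / 2 := by positivity
      linarith
    · rw [hq₁]
      nlinarith
  have hEx2 : ExR N q₂ ≤ N * (p / 2 - 1) - 1 + N * e0 / 2 := by
    apply max_le
    · have : 0 ≤ N * e0 / 2 := by positivity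
      linarith
    · rw [hq₂]
      nlinarith
  have htau : ∀ q : ℝ, p - e0 ≤ q → tau q ≤ tau p + e0 / 2 := by
    intro q hq
    unfold tau
    apply max_le
    · have : 2 - p / 2 ≤ max (2 - p / 2) (1 / 2) := le_max_left _ _
      linarith
    · have : (1 : ℝ) / 2 ≤ max (2 - p / 2) (1 / 2) := le_max_right _ _
      linarith
  have hLam : ∀ q : ℝ, p - e0 ≤ q → ExR N q ≤ N * (p / 2 - 1) - 1 + N * e0 / 2 →
      lam ^ (ExR N q + η / 2) * L ^ (tau q) ≤
        lam ^ (N * (p / 2 - 1) - 1 + η) * L ^ (tau p) := by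
    intro q hq hEx
    have h1 : L ^ (tau q) ≤ L ^ (tau p) * lam ^ e0 := by
      calc L ^ (tau q) ≤ L ^ (tau p + e0 / 2) := Real.rpow_le_rpow_of_exponent_le hL (htau q hq)
        _ = L ^ (tau p) * L ^ (e0 / 2) := Real.rpow_add hL0 _ _
        _ ≤ L ^ (tau p) * lam ^ e0 := by
            apply mul_le_mul_of_nonneg_left _ (Real.rpow_nonneg hL0.le _)
            calc L ^ (e0 / 2) ≤ (lam ^ 2) ^ (e0 / 2) :=
                  Real.rpow_le_rpow hL0.le hL2 (by positivity)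
              _ = lam ^ e0 := by
                  rw [← Real.rpow_natCast, ← Real.rpow_mul hl0.le]
                  congr 1
                  push_cast
                  ring
    calc lam ^ (ExR N q + η / 2) * L ^ (tau q)
        ≤ lam ^ (ExR N q + η / 2) * (L ^ (tau p) * lam ^ e0) :=
          mul_le_mul_of_nonneg_left h1 (Real.rpow_nonneg hl0.le _)
      _ = lam ^ (ExR N q + η / 2 + e0) * L ^ (tau p) := by
          rw [Real.rpow_add hl0 (ExR N q + η / 2) e0]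
          ring
      _ ≤ _ := by
          apply mul_le_mul_of_nonneg_right _ (Real.rpow_nonneg hL0.le _)
          apply Real.rpow_le_rpow_of_exponent_le hl
          have h3 : N * e0 / 2 + e0 ≤ η / 2 := by nlinarith
          linarith
  set B : ℝ≥0∞ := ENNReal.ofReal (C' * (lam ^ (N * (p / 2 - 1) - 1 + η) * L ^ (tau p))) with hB
  have hgen : ∀ (q Cq : ℝ), 2 < q → 0 ≤ Cq → Cq * 2 ^ q ≤ C' →
      lam ^ (ExR N q + η / 2) * L ^ (tau q) ≤
        lam ^ (N * (p / 2 - 1) - 1 + η) * L ^ (tau p) → (∀ (lam L A : ℝ)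
      (f : EE d → ℂ), 1 ≤ lam → 1 ≤ L → BCd A f →
      ∫⁻ p, ‖MM (mT lam p.1) (P L f) p.2‖ₑ ^ q ∂(stm d) ≤
      ENNReal.ofReal (Cq * (lam ^ (ExR N q + η / 2) * L ^ (tau q) * A ^ (q - 2))) *
        ∫⁻ x, ‖f x‖ₑ ^ 2) →
      ∀ l : ℤ, ∫⁻ y, ‖MM (mT lam y.1) (P L (pc f l)) y.2‖ₑ ^ q ∂(stm d) ≤
        B * ENNReal.ofReal ((2 : ℝ) ^ ((l : ℝ) * q)) * volume (lev f l) := by
    intro q Cq hq hCq hCC hEx hR l
    refine (hR lam L _ (pc f l) hl hL (pc_BCd A f hf l)).trans ?_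
    refine (mul_le_mul' le_rfl (pc_l2 f hf.1 l)).trans ?_
    rw [← mul_assoc]
    apply mul_le_mul' _ le_rfl
    have hpos : (0 : ℝ) < (2 : ℝ) ^ ((l : ℝ) + 1) := by positivity
    rw [← ENNReal.ofReal_mul (by positivity), hB, ← ENNReal.ofReal_mul (by positivity)]
    apply ENNReal.ofReal_le_ofReal
    have e1 : ((2 : ℝ) ^ ((l : ℝ) + 1)) ^ (q - 2) * ((2 : ℝ) ^ ((l : ℝ) + 1)) ^ (2 : ℝ)
        = (2 : ℝ) ^ q * (2 : ℝ) ^ ((l : ℝ) * q) := by
      rw [← Real.rpow_add hpos, ← Real.rpow_mul (by norm_num), ← Real.rpow_add (by norm_num)]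
      congr 1
      ring
    calc Cq * (lam ^ (ExR N q + η / 2) * L ^ (tau q) * ((2 : ℝ) ^ ((l : ℝ) + 1)) ^ (q - 2)) *
          ((2 : ℝ) ^ ((l : ℝ) + 1)) ^ (2 : ℝ)
        = (Cq * 2 ^ q) * (lam ^ (ExR N q + η / 2) * L ^ (tau q)) * (2 : ℝ) ^ ((l : ℝ) * q) := by
          rw [mul_assoc Cq, mul_assoc (lam ^ _ * L ^ (tau q)), e1]
          ring
      _ ≤ _ := by gcongr
  have hgm : ∀ l : ℤ, Measurable fun y : ℝ × EE d => ‖MM (mT lam y.1) (P L (pc f l)) y.2‖ₑ :=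
    fun l => (MM_cont lam hl0 _ ((hP L hL).int _ (pc_BCd A f hf l).1
      (BCd_int _ _ (pc_BCd A f hf l)))).measurable.enorm
  have h1 := hC (ℝ × EE d) (stm d) (fun l y => ‖MM (mT lam y.1) (P L (pc f l)) y.2‖ₑ)
    (fun l => volume (lev f l)) B hgm
    (hgen q₁ C₁ (by linarith) hC₁0 (by
      have : 0 ≤ C₂ * 2 ^ q₂ := by positivity
      linarith) (hLam q₁ le_rfl hEx1) hC₁)
    (hgen q₂ C₂ (by linarith) hC₂0 (by
      have : 0 ≤ C₁ * 2 ^ q₁ := by positivity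
      linarith) (hLam q₂ (by linarith) hEx2) hC₂)
  calc ∫⁻ q, ‖MM (mT lam q.1) (P L f) q.2‖ₑ ^ p ∂(stm d)
      ≤ ∫⁻ q, (∑' l : ℤ, ‖MM (mT lam q.1) (P L (pc f l)) q.2‖ₑ) ^ p ∂(stm d) := by
        refine lintegral_mono fun q => ?_
        exact ENNReal.rpow_le_rpow (MM_tsumP lam hl0 hPLE q.1 A (P L) (hP L hL) f hf q.2)
          (by linarith)
    _ ≤ _ := h1
    _ ≤ C * B * ∫⁻ x, ‖f x‖ₑ ^ p := mul_le_mul' le_rfl (lev_sum f hf.1 p (by linarith))
    _ = _ := by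
        rw [hB, ENNReal.ofReal_mul hC'0]
        push_cast
        rw [← mul_assoc]
        rfl

/-- from compactly supported to integrable functions -/
theorem lim3 (hPLE : T_PLE) (d : ℕ) (P : (EE d → ℂ) → EE d → ℂ) (hG : GoodOp P) (p lam : ℝ)
    (hp0 : 0 ≤ p) (hl0 : 0 < lam) (K : ℝ≥0∞)
    (hC : ∀ (A : ℝ) (f : EE d → ℂ), BCd A f →
      ∫⁻ q, ‖MM (mT lam q.1) (P f) q.2‖ₑ ^ p ∂(stm d) ≤ K * ∫⁻ x, ‖f x‖ₑ ^ p)
    (f : EE d → ℂ) (hm : Measurable f) (hfi : Integrable f) (A : ℝ) (hA : ∀ x, ‖f x‖ ≤ A) :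
    ∫⁻ t in Icc (1 : ℝ) 2, ∫⁻ x, ‖MM (mT lam t) (P f) x‖ₑ ^ p ≤ K * ∫⁻ x, ‖f x‖ₑ ^ p := by
  set g : EE d → ℂ := P f with hg
  have hgm : Measurable g := hG.meas f hm
  have hgi : Integrable g := hG.int f hm hfi
  have hgA : ∀ x, ‖g x‖ ≤ A := hG.sup f A hm hA
  set fk : ℕ → EE d → ℂ := fun k => (Metric.closedBall (0 : EE d) k).indicator f with hfk
  have hmk : ∀ k, Measurable (fk k) := fun k => hm.indicator measurableSet_closedBall
  have hle : ∀ k x, ‖fk k x‖ ≤ ‖f x‖ := fun k x => norm_indicator_le_norm_self f x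
  have hBC : ∀ k, BCd A (fk k) := by
    intro k
    refine ⟨hmk k, fun x => (hle k x).trans (hA x), k, fun x hx => ?_⟩
    rw [hfk]
    simp only
    rw [indicator_of_notMem]
    rw [mem_closedBall_zero_iff, not_le]
    exact hx
  have hPk : ∀ k : ℕ, P (fk k) = (Metric.closedBall (0 : EE d) k).indicator g := fun k =>
    hG.ball f k hm
  have hmeas : ∀ g : EE d → ℂ, Integrable g →
      Measurable fun q : ℝ × EE d => ‖MM (mT lam q.1) g q.2‖ₑ ^ p := fun g hg =>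
    (MM_cont lam hl0 g hg).measurable.enorm.pow_const p
  have hconv : ∀ q : ℝ × EE d, Filter.Tendsto
      (fun k => ‖MM (mT lam q.1) (P (fk k)) q.2‖ₑ ^ p) Filter.atTop
      (nhds (‖MM (mT lam q.1) g q.2‖ₑ ^ p)) := by
    intro q
    apply Filter.Tendsto.ennrpow_const
    apply Filter.Tendsto.enorm
    rw [MM_conv lam hl0 hPLE q.1 g hgi hgm ⟨A, hgA⟩ q.2]
    have hgkm : ∀ k : ℕ, Measurable ((Metric.closedBall (0 : EE d) k).indicator g) :=
      fun k => hgm.indicator measurableSet_closedBall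
    have hgle : ∀ (k : ℕ) x, ‖(Metric.closedBall (0 : EE d) k).indicator g x‖ ≤ ‖g x‖ :=
      fun k x => norm_indicator_le_norm_self g x
    have e2 : ∀ k : ℕ, MM (mT lam q.1) (P (fk k)) q.2 =
        ∫ y, MK (mT lam q.1) (q.2 - y) * (Metric.closedBall (0 : EE d) k).indicator g y := by
      intro k
      rw [hPk k]
      exact MM_conv lam hl0 hPLE q.1 _ (hgi.indicator measurableSet_closedBall) (hgkm k)
        ⟨A, fun x => (hgle k x).trans (hgA x)⟩ q.2
    simp_rw [e2]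
    have hKm : AEStronglyMeasurable (fun y : EE d => MK (mT lam q.1) (q.2 - y)) :=
      ((MK_cont lam hl0 q.1).comp (continuous_const.sub continuous_id)).aestronglyMeasurable
    apply tendsto_integral_of_dominated_convergence
      (fun y => ‖MK (mT lam q.1) (q.2 - y) * g y‖)
    · intro k
      exact hKm.mul (hgkm k).aestronglyMeasurable
    · exact (hgi.bdd_mul (c := ∫ ξ : EE d, ‖mT lam q.1 ξ‖) hKm
        (Filter.Eventually.of_forall fun y => MK_le lam hl0 q.1 _)).norm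
    · intro k
      refine Filter.Eventually.of_forall fun y => ?_
      rw [norm_mul, norm_mul]
      exact mul_le_mul_of_nonneg_left (hgle k y) (norm_nonneg _)
    · refine Filter.Eventually.of_forall fun y => ?_
      apply Filter.Tendsto.const_mul
      obtain ⟨k0, hk0⟩ := exists_nat_ge ‖y‖
      refine tendsto_const_nhds.congr' ?_
      filter_upwards [Filter.eventually_ge_atTop k0] with k hk
      rw [indicator_of_mem]
      rw [mem_closedBall_zero_iff]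
      exact hk0.trans (by exact_mod_cast hk)
  rw [st_eq (fun q => ‖MM (mT lam q.1) g q.2‖ₑ ^ p) (hmeas g hgi)]
  calc ∫⁻ q, ‖MM (mT lam q.1) g q.2‖ₑ ^ p ∂(stm d)
      = ∫⁻ q, Filter.liminf (fun k => ‖MM (mT lam q.1) (P (fk k)) q.2‖ₑ ^ p) Filter.atTop
          ∂(stm d) := by
        refine lintegral_congr fun q => ?_
        exact (hconv q).liminf_eq.symm
    _ ≤ Filter.liminf (fun k => ∫⁻ q, ‖MM (mT lam q.1) (P (fk k)) q.2‖ₑ ^ p ∂(stm d))
          Filter.atTop :=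
        lintegral_liminf_le fun k => hmeas _ (hG.int _ (hmk k) (BCd_int A _ (hBC k)))
    _ ≤ _ := by
        apply Filter.liminf_le_of_frequently_le'
        apply Filter.Frequently.of_forall
        intro k
        refine (hC A (fk k) (hBC k)).trans ?_
        apply mul_le_mul' le_rfl
        refine lintegral_mono fun x => ?_
        apply ENNReal.rpow_le_rpow _ hp0
        rw [← ofReal_norm, ← ofReal_norm]
        exact ENNReal.ofReal_le_ofReal (hle k x)

theorem p_th (p : ℝ) (hp : 0 < p) : p * th p = tau p := by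
  unfold th tau
  rw [mul_max_of_nonneg _ _ hp.le]
  congr 1
  · field_simp
  · field_simp

theorem pf_sg3 (hRT : T_RT) (hGAQ : T_GAQ) (hMARC : T_MARC) (hRADL : T_RADL) (hPLE : T_PLE) :
    T_SG3 := by
  intro a b p η ha hb hp hη
  have hcast : ((a : ℝ) + b - 1) = (((a + b : ℕ) : ℝ) - 1) := by push_cast; ring
  rw [hcast] at hp
  have hP : ∀ L, 1 ≤ L → GoodOp (AQ a b L) := fun L hL => hGAQ a b L (by omega) hb hL
  have hM : MAL3 (a + b) (fun L => AQ a b L) := by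
    intro q η' hq hq3 hη'
    obtain ⟨C, hC⟩ := hRT a b q η' ha hb hq hq3 hη'
    refine ⟨C, fun lam L A f hl hL hf => ?_⟩
    rw [← hcast]
    exact hC lam L A f hl hL ⟨hf.1, BCd_int A f hf, hf.2.1⟩
  obtain ⟨C, hC⟩ := strong3 hMARC hRADL hPLE (a + b) (by omega) (fun L => AQ a b L) hP hM p η hp hη
  refine ⟨C, fun lam L f hl hL hL2 hm hfi ⟨A, hA⟩ => ?_⟩
  have hd3 : (3 : ℝ) ≤ ((a + b : ℕ) : ℝ) := by
    have : 3 ≤ a + b := by omega
    exact_mod_cast this
  have hp0 : 0 < p := by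
    have h2n : 0 < 2 / (((a + b : ℕ) : ℝ) - 1) := by
      apply div_pos (by norm_num)
      linarith
    linarith
  rw [p_th p hp0, hcast]
  exact lim3 hPLE (a + b) (AQ a b L) (hP L hL) p lam hp0.le (by linarith) _
    (fun A f hf => hC lam L A f hl hL hL2 hf) f hm hfi A hA

end Pool.Agent.H54.TN
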